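import Mathlib

/-!
# MP_6e06a5_co: minimum joins on odd toroidal grids

For every odd `L ≥ 3` and every set `D` of an even number of vertices of the `L × L` toroidal grid
there is a minimum `D`-join in which every vertex of `D` has degree exactly `1`.

Outline of the proof. Take a minimum `D`-join `J` with as few vertices of degree 3 as possible, and
suppose that `v` has degree 3. Flipping a plaquette at `v` moves the vertex of degree 3 to the
opposite corner of the plaquette, and the flips can be continued for ever; the resulting walk of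
plaquettes is reversible, hence periodic. Comparing the weights (edges outside `J` count `1`, edges
in `J` count `-1`) of the two boundary chains of the walk one sees that no edge is touched on
different sides before the first revisit of a plaquette, that a revisit uses the same entrance, and
that the whole state returns; then all `L ^ 2` plaquettes are visited exactly once per period, while
the period is even.
-/

namespace Pool.Agent.Results.MP_6e06a5_co.DegreeOne

open Finset

/-! ### The statement -/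

/-- The `L × L` toroidal grid graph: two vertices are adjacent if they agree in one coordinate and
differ by one in the other. -/
def torusGrid (L : ℕ) : SimpleGraph (ZMod L × ZMod L) where
  Adj u v := u ≠ v ∧ ((u.1 = v.1 ∧ (u.2 = v.2 + 1 ∨ v.2 = u.2 + 1)) ∨
    (u.2 = v.2 ∧ (u.1 = v.1 + 1 ∨ v.1 = u.1 + 1)))
  symm := by
    constructor
    rintro u v ⟨h, h' | h'⟩
    · exact ⟨h.symm, Or.inl ⟨h'.1.symm, h'.2.symm⟩⟩
    · exact ⟨h.symm, Or.inr ⟨h'.1.symm, h'.2.symm⟩⟩
  loopless := by
    constructor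
    rintro u ⟨h, _⟩
    exact h rfl

open Classical in
/-- The `J`-degree of a vertex. -/
noncomputable def jdeg {L : ℕ} (J : Finset (Sym2 (ZMod L × ZMod L))) (v : ZMod L × ZMod L) : ℕ :=
  (J.filter (fun e => v ∈ e)).card

/-- `D`-joins: sets of edges whose vertices of odd degree are exactly the elements of `D`. -/
structure IsJoin (L : ℕ) (D : Finset (ZMod L × ZMod L)) (J : Finset (Sym2 (ZMod L × ZMod L))) :
    Prop where
  edges : ∀ e ∈ J, e ∈ (torusGrid L).edgeSet
  parity : ∀ v, Odd (jdeg J v) ↔ v ∈ D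

/-- Minimum `D`-joins. -/
def IsMinJoin (L : ℕ) (D : Finset (ZMod L × ZMod L)) (J : Finset (Sym2 (ZMod L × ZMod L))) :
    Prop :=
  IsJoin L D J ∧ ∀ J', IsJoin L D J' → J.card ≤ J'.card

/-! ### Chains on the torus -/

/-- The vertices. -/
abbrev V (L : ℕ) := ZMod L × ZMod L

/-- The edges: `(c, false)` joins `c` and `c + (1,0)`, `(c, true)` joins `c` and `c + (0,1)`. -/
abbrev E (L : ℕ) := V L × Bool

/-- Chains modulo two. -/
abbrev Ch (L : ℕ) := E L → ZMod 2

variable {L : ℕ}

def z (L : ℕ) (o : Bool) : ZMod L := if o then 1 else 0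

@[simp] lemma z_true : z L true = 1 := rfl
@[simp] lemma z_false : z L false = 0 := rfl

def eh (c : V L) (o : Bool) : E L := ((c.1, c.2 + z L o), false)
def ev (c : V L) (o : Bool) : E L := ((c.1 + z L o, c.2), true)

def dl {A : Type} [DecidableEq A] (a : A) : A → ZMod 2 := fun y => if y = a then 1 else 0

lemma dl_self {A : Type} [DecidableEq A] (a : A) : dl a a = 1 := by simp [dl]
lemma dl_ne {A : Type} [DecidableEq A] {a y : A} (h : y ≠ a) : dl a y = 0 := by simp [dl, h]

lemma add_self2 {A : Type} (F : A → ZMod 2) : F + F = 0 := by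
  funext a
  exact CharTwo.add_self_eq_zero (F a)

def bd (F : Ch L) : V L → ZMod 2 := fun v =>
  F (v, false) + F ((v.1 - 1, v.2), false) + F (v, true) + F ((v.1, v.2 - 1), true)

lemma bd_add (F G : Ch L) : bd (F + G) = bd F + bd G := by
  funext v
  simp only [bd, Pi.add_apply]
  ring

lemma bd_zero : bd (0 : Ch L) = 0 := by
  funext v
  simp [bd]

lemma bd_sum {ι : Type} (s : Finset ι) (F : ι → Ch L) : bd (∑ i ∈ s, F i) = ∑ i ∈ s, bd (F i) := by
  classical
  induction s using Finset.induction_on with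
  | empty => simp [bd_zero]
  | insert i s hi ih => rw [Finset.sum_insert hi, Finset.sum_insert hi, bd_add, ih]

lemma bd_h (c : V L) : bd (dl (c, false)) = dl c + dl (c.1 + 1, c.2) := by
  funext v
  obtain ⟨v1, v2⟩ := v
  obtain ⟨c1, c2⟩ := c
  simp only [bd, dl, Prod.mk.injEq, and_true, Bool.true_eq_false, and_false, if_false, add_zero,
    Pi.add_apply, sub_eq_iff_eq_add]

lemma bd_v (c : V L) : bd (dl (c, true)) = dl c + dl (c.1, c.2 + 1) := by
  funext v
  obtain ⟨v1, v2⟩ := v
  obtain ⟨c1, c2⟩ := c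
  simp only [bd, dl, Prod.mk.injEq, and_true, Bool.false_eq_true, and_false, if_false, zero_add,
    add_zero, Pi.add_apply, sub_eq_iff_eq_add]

/-- The boundary of the plaquette with lower left corner `c`. -/
def pl (c : V L) : Ch L := dl (eh c false) + dl (eh c true) + dl (ev c false) + dl (ev c true)

lemma bd_pl (c : V L) : bd (pl c) = 0 := by
  funext w
  simp only [pl, bd_add, eh, ev, bd_h, bd_v, z_true, z_false, add_zero, Pi.add_apply,
    Pi.zero_apply]
  generalize dl (c.1, c.2) w = p'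
  generalize dl (c.1 + 1, c.2) w = q
  generalize dl (c.1, c.2 + 1) w = r
  generalize dl (c.1 + 1, c.2 + 1) w = s
  revert p' q r s
  decide

/-- A state: plaquette `c`, corner `(x, y)` of it, and the type `b` of the stem (`false`: the stem
is vertical). -/
structure St (L : ℕ) where
  c : V L
  x : Bool
  y : Bool
  b : Bool

namespace St

def e (S : St L) : E L := if S.b then eh S.c S.y else ev S.c S.x
def f (S : St L) : E L := if S.b then ev S.c S.x else eh S.c S.y
def g (S : St L) (m : Bool) : E L := if m then ev S.c (!S.x) else eh S.c (!S.y)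
def e' (S : St L) (m : Bool) : E L := if m then eh S.c (!S.y) else ev S.c (!S.x)

def next (S : St L) (m : Bool) : St L :=
  if m then ⟨(S.c.1, S.c.2 + (z L (!S.y) - z L S.y)), !S.x, S.y, true⟩
  else ⟨(S.c.1 + (z L (!S.x) - z L S.x), S.c.2), S.x, !S.y, false⟩

def v (S : St L) : V L := (S.c.1 + z L S.x, S.c.2 + z L S.y)
def u (S : St L) : V L :=
  if S.b then (S.c.1 + z L (!S.x), S.c.2 + z L S.y) else (S.c.1 + z L S.x, S.c.2 + z L (!S.y))
/-- the head of `f` -/
def hf (S : St L) : V L :=
  if S.b then (S.c.1 + z L S.x, S.c.2 + z L (!S.y)) else (S.c.1 + z L (!S.x), S.c.2 + z L S.y)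
def side (S : St L) : Bool := xor S.x (xor S.y S.b)
def zz (S : St L) (ρ : Bool) : V L := if S.side = ρ then S.v else S.u

lemma next_e (S : St L) (m : Bool) : (S.next m).e = S.e' m := by
  rcases S with ⟨⟨c1, c2⟩, x, y, b⟩
  cases m <;> cases x <;> cases y <;> simp [next, e, e', eh, ev]

lemma next_b (S : St L) (m : Bool) : (S.next m).b = m := by
  cases m <;> simp [next]

lemma next_v (S : St L) (m : Bool) :
    (S.next m).v = (S.c.1 + z L (!S.x), S.c.2 + z L (!S.y)) := by
  rcases S with ⟨⟨c1, c2⟩, x, y, b⟩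
  cases m <;> cases x <;> cases y <;> simp [next, v]

def A (S : St L) (m ρ : Bool) : Ch L :=
  (if S.side = ρ then dl S.f else 0) + (if (S.next m).side = ρ then dl (S.g m) else 0)

lemma bd_e (S : St L) : bd (dl S.e) = dl S.v + dl S.u := by
  rcases S with ⟨⟨c1, c2⟩, x, y, b⟩
  cases x <;> cases y <;> cases b <;> simp [e, eh, ev, v, u, bd_h, bd_v, add_comm]

lemma bd_f (S : St L) : bd (dl S.f) = dl S.v + dl S.hf := by
  rcases S with ⟨⟨c1, c2⟩, x, y, b⟩
  cases x <;> cases y <;> cases b <;> simp [f, eh, ev, v, hf, bd_h, bd_v, add_comm]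

lemma pl_eq (S : St L) (m : Bool) : pl S.c = dl S.e + dl S.f + dl (S.g m) + dl (S.e' m) := by
  rcases S with ⟨⟨c1, c2⟩, x, y, b⟩
  cases m <;> cases x <;> cases y <;> cases b <;> simp [e, f, g, e', pl] <;> abel

lemma bd_A (S : St L) (m ρ : Bool) : bd (S.A m ρ) = dl (S.zz ρ) + dl ((S.next m).zz ρ) := by
  rcases S with ⟨⟨c1, c2⟩, x, y, b⟩
  cases m <;> cases x <;> cases y <;> cases b <;> cases ρ <;>
    simp [A, side, next, zz, f, g, v, u, bd_add, bd_h, bd_v, eh, ev, bd_zero, add_self2]
  all_goals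
    funext w
    simp only [Pi.add_apply]
    generalize dl (c1, c2) w = p
    generalize dl (c1 + 1, c2) w = q
    generalize dl (c1, c2 + 1) w = r
    generalize dl (c1 + 1, c2 + 1) w = s
    revert p q r s
    decide

end St

/-! ### Weights -/

def om (j φ : ZMod 2) : ℤ := if φ = 0 then 0 else if j = 0 then 1 else -1

/-- The weight of the chain `F` with respect to `J`: edges of `F` outside `J` count `1`, edges of
`F` in `J` count `-1`. -/
def wt [NeZero L] (J F : Ch L) : ℤ := ∑ x, om (J x) (F x)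

lemma z2 (a : ZMod 2) : a = 0 ∨ a = 1 := by
  revert a; decide

lemma wt_step [NeZero L] {K F : Ch L} {f g : E L} (hfg : f ≠ g) (hf : K f = 1) (hg : K g = 0)
    (α β : Prop) [Decidable α] [Decidable β] (hα : α ∨ F f = 0) (hβ : β ∨ F g = 0) :
    wt (K + dl f + dl g) (F + ((if α then dl f else 0) + (if β then dl g else 0))) =
      wt K F + ((if α then 1 else 0) - (if β then 1 else 0)) := by
  rw [← sub_eq_iff_eq_add']
  unfold wt
  rw [← Finset.sum_sub_distrib]
  rw [Fintype.sum_eq_add f g hfg]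
  · have e1 : dl g f = 0 := dl_ne hfg
    have e2 : dl f g = 0 := dl_ne hfg.symm
    have hF1 := z2 (F f)
    have hF2 := z2 (F g)
    by_cases hα' : α
    · by_cases hβ' : β
      · simp only [Pi.add_apply, dl_self, e1, e2, hf, hg, if_pos hα', if_pos hβ']
        rcases hF1 with h | h <;> rcases hF2 with h' | h' <;> rw [h, h'] <;> decide
      · have h' := hβ.resolve_left hβ'
        simp only [Pi.add_apply, dl_self, e1, e2, hf, hg, if_pos hα', if_neg hβ', Pi.zero_apply, h']
        rcases hF1 with h | h <;> rw [h] <;> decide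
    · have h := hα.resolve_left hα'
      by_cases hβ' : β
      · simp only [Pi.add_apply, dl_self, e1, e2, hf, hg, if_neg hα', if_pos hβ', Pi.zero_apply, h]
        rcases hF2 with h' | h' <;> rw [h'] <;> decide
      · have h' := hβ.resolve_left hβ'
        simp only [Pi.add_apply, dl_self, e1, e2, hf, hg, if_neg hα', if_neg hβ', Pi.zero_apply,
          h, h']
        decide
  · rintro x ⟨hx1, hx2⟩
    have e1 : dl f x = 0 := dl_ne hx1
    have e2 : dl g x = 0 := dl_ne hx2
    by_cases hα' : α <;> by_cases hβ' : β <;>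
      simp [Pi.add_apply, e1, e2, hα', hβ']

lemma wt_add_dl [NeZero L] {K F : Ch L} {e : E L} (he : K e = 0) :
    wt (K + dl e) (F + dl e) = wt K F - 1 := by
  rw [eq_sub_iff_add_eq, add_comm, ← eq_sub_iff_add_eq]
  unfold wt
  rw [← Finset.sum_sub_distrib, Fintype.sum_eq_single e]
  · simp only [Pi.add_apply, dl_self, he]
    rcases z2 (F e) with h | h <;> rw [h] <;> decide
  · intro x hx
    simp [Pi.add_apply, dl_ne hx]

lemma wt_le [NeZero L] {K F : Ch L} {e : E L} (he : K e = 0) :
    wt (K + dl e) F ≤ wt K F := by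
  unfold wt
  apply Finset.sum_le_sum
  intro x _
  by_cases hx : x = e
  · subst hx
    simp only [Pi.add_apply, dl_self, he]
    rcases z2 (F x) with h | h <;> rw [h] <;> decide
  · simp only [Pi.add_apply, dl_ne hx, add_zero]
    exact le_rfl

lemma wt_dl [NeZero L] {K : Ch L} {e : E L} (he : K e = 1) : wt K (dl e) = -1 := by
  unfold wt
  rw [Fintype.sum_eq_single e]
  · rw [dl_self, he]
    decide
  · intro x hx
    rw [dl_ne hx]
    simp [om]

lemma wt_zero [NeZero L] {K : Ch L} : wt K 0 = 0 := by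
  unfold wt
  apply Finset.sum_eq_zero
  intro x _
  simp [om]

/-! ### Edges and plaquettes -/

def inP (c : V L) (x : E L) : Prop := ∃ o, x = eh c o ∨ x = ev c o

lemma eh_ne_ev (c c' : V L) (o o' : Bool) : eh c o ≠ ev c' o' := by
  simp [eh, ev]

lemma eh_inj (h1 : (1 : ZMod L) ≠ 0) {c : V L} {o o' : Bool} (h : eh c o = eh c o') : o = o' := by
  obtain ⟨c1, c2⟩ := c
  cases o <;> cases o' <;> simp [eh, h1] at h ⊢

lemma ev_inj (h1 : (1 : ZMod L) ≠ 0) {c : V L} {o o' : Bool} (h : ev c o = ev c o') : o = o' := by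
  obtain ⟨c1, c2⟩ := c
  cases o <;> cases o' <;> simp [ev, h1] at h ⊢

lemma inP_e (S : St L) : inP S.c S.e := by
  unfold St.e
  split_ifs
  · exact ⟨_, Or.inl rfl⟩
  · exact ⟨_, Or.inr rfl⟩

lemma inP_f (S : St L) : inP S.c S.f := by
  unfold St.f
  split_ifs
  · exact ⟨_, Or.inr rfl⟩
  · exact ⟨_, Or.inl rfl⟩

lemma inP_g (S : St L) (m : Bool) : inP S.c (S.g m) := by
  unfold St.g
  split_ifs
  · exact ⟨_, Or.inr rfl⟩
  · exact ⟨_, Or.inl rfl⟩

lemma inP_e' (S : St L) (m : Bool) : inP S.c (S.e' m) := by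
  unfold St.e'
  split_ifs
  · exact ⟨_, Or.inl rfl⟩
  · exact ⟨_, Or.inr rfl⟩

lemma inP_cases {S : St L} (m : Bool) {x : E L} (h : inP S.c x) :
    x = S.e ∨ x = S.f ∨ x = S.g m ∨ x = S.e' m := by
  obtain ⟨o, h⟩ := h
  rcases S with ⟨c, x, y, b⟩
  cases m <;> cases o <;> cases x <;> cases y <;> cases b <;>
    simp [St.e, St.f, St.g, St.e'] at h ⊢ <;> tauto

lemma e_ne_f (S : St L) : S.e ≠ S.f := by
  unfold St.e St.f
  split_ifs
  · exact eh_ne_ev _ _ _ _
  · exact (eh_ne_ev _ _ _ _).symm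

lemma f_ne_g (h1 : (1 : ZMod L) ≠ 0) (S : St L) (m : Bool) : S.f ≠ S.g m := by
  rcases S with ⟨⟨c1, c2⟩, x, y, b⟩
  cases m <;> cases x <;> cases y <;> cases b <;> simp [St.f, St.g, eh, ev, h1]

lemma e_ne_g (h1 : (1 : ZMod L) ≠ 0) (S : St L) (m : Bool) : S.e ≠ S.g m := by
  rcases S with ⟨⟨c1, c2⟩, x, y, b⟩
  cases m <;> cases x <;> cases y <;> cases b <;> simp [St.e, St.g, eh, ev, h1]

lemma e_ne_e' (h1 : (1 : ZMod L) ≠ 0) (S : St L) (m : Bool) : S.e ≠ S.e' m := by
  rcases S with ⟨⟨c1, c2⟩, x, y, b⟩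
  cases m <;> cases x <;> cases y <;> cases b <;> simp [St.e, St.e', eh, ev, h1]

lemma f_ne_e' (h1 : (1 : ZMod L) ≠ 0) (S : St L) (m : Bool) : S.f ≠ S.e' m := by
  rcases S with ⟨⟨c1, c2⟩, x, y, b⟩
  cases m <;> cases x <;> cases y <;> cases b <;> simp [St.f, St.e', eh, ev, h1]

lemma g_ne_e' (S : St L) (m : Bool) : S.g m ≠ S.e' m := by
  rcases S with ⟨c, x, y, b⟩
  cases m <;> simp [St.g, St.e', eh, ev]

lemma inP_iff {c : V L} {x : E L} : inP c x ↔ ∃ o, c = if x.2 then (x.1.1 - z L o, x.1.2) else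
    (x.1.1, x.1.2 - z L o) := by
  obtain ⟨⟨x1, x2⟩, t⟩ := x
  obtain ⟨c1, c2⟩ := c
  constructor
  · rintro ⟨o, h | h⟩
    · simp only [eh, Prod.mk.injEq] at h
      obtain ⟨⟨rfl, rfl⟩, rfl⟩ := h
      exact ⟨o, by simp⟩
    · simp only [ev, Prod.mk.injEq] at h
      obtain ⟨⟨rfl, rfl⟩, rfl⟩ := h
      exact ⟨o, by simp⟩
  · rintro ⟨o, h⟩
    cases t
    · simp only [Bool.false_eq_true, if_false, Prod.mk.injEq] at h
      obtain ⟨rfl, rfl⟩ := h
      exact ⟨o, Or.inl (by simp [eh])⟩
    · simp only [if_true, Prod.mk.injEq] at h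
      obtain ⟨rfl, rfl⟩ := h
      exact ⟨o, Or.inr (by simp [ev])⟩

lemma inP_three {c₁ c₂ c₃ : V L} {x : E L} (h1 : inP c₁ x) (h2 : inP c₂ x) (h3 : inP c₃ x) :
    c₁ = c₂ ∨ c₁ = c₃ ∨ c₂ = c₃ := by
  rw [inP_iff] at h1 h2 h3
  obtain ⟨o1, h1⟩ := h1
  obtain ⟨o2, h2⟩ := h2
  obtain ⟨o3, h3⟩ := h3
  cases o1 <;> cases o2 <;> cases o3 <;> simp_all

lemma inP_pair {c₁ c₂ : V L} (hc : c₁ ≠ c₂) {x : E L} (hx1 : inP c₁ x) (hx2 : inP c₂ x) :
    (x = eh c₁ true ∧ x = eh c₂ false ∧ c₂ = (c₁.1, c₁.2 + 1)) ∨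
    (x = eh c₁ false ∧ x = eh c₂ true ∧ c₁ = (c₂.1, c₂.2 + 1)) ∨
    (x = ev c₁ true ∧ x = ev c₂ false ∧ c₂ = (c₁.1 + 1, c₁.2)) ∨
    (x = ev c₁ false ∧ x = ev c₂ true ∧ c₁ = (c₂.1 + 1, c₂.2)) := by
  obtain ⟨a1, a2⟩ := c₁
  obtain ⟨b1, b2⟩ := c₂
  obtain ⟨o1, hx1⟩ := hx1
  obtain ⟨o2, hx2⟩ := hx2
  rcases hx1 with rfl | rfl <;> rcases hx2 with h | h
  · cases o1 <;> cases o2 <;> simp [eh, ev] at h hc ⊢
    · exact absurd h.2 (hc h.1)
    · exact Or.inr h
    · obtain ⟨rfl, h⟩ := h; exact Or.inl ⟨⟨rfl, h⟩, rfl, h.symm⟩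
    · exact absurd h.2 (hc h.1)
  · exact absurd h (eh_ne_ev _ _ _ _)
  · exact absurd h.symm (eh_ne_ev _ _ _ _)
  · cases o1 <;> cases o2 <;> simp [eh, ev] at h hc ⊢
    · exact absurd h.2 (hc h.1)
    · exact Or.inr h
    · obtain ⟨h, rfl⟩ := h; exact Or.inl ⟨⟨h, rfl⟩, h.symm, rfl⟩
    · exact absurd h.2 (hc h.1)

lemma inP_two (h1 : (1 : ZMod L) ≠ 0) (h2 : (1 + 1 : ZMod L) ≠ 0) {c₁ c₂ : V L} (hc : c₁ ≠ c₂)
    {x y : E L} (hx1 : inP c₁ x) (hx2 : inP c₂ x) (hy1 : inP c₁ y) (hy2 : inP c₂ y) : x = y := by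
  have hx := inP_pair hc hx1 hx2
  have hy := inP_pair hc hy1 hy2
  obtain ⟨a1, a2⟩ := c₁
  obtain ⟨b1, b2⟩ := c₂
  have k1 : ∀ a b : ZMod L, a = b + 1 → b = a + 1 → False := by
    intro a b h h'
    rw [h'] at h
    apply h2
    have : a + 0 = a + (1 + 1) := by rw [add_zero, ← add_assoc]; exact h
    exact (add_left_cancel this).symm
  have k2 : ∀ a : ZMod L, a = a + 1 → False := by
    intro a h
    apply h1
    have : a + 0 = a + 1 := by rw [add_zero]; exact h
    exact (add_left_cancel this).symm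
  rcases hx with ⟨h, _, hx⟩ | ⟨h, _, hx⟩ | ⟨h, _, hx⟩ | ⟨h, _, hx⟩ <;>
    rcases hy with ⟨h', _, hy⟩ | ⟨h', _, hy⟩ | ⟨h', _, hy⟩ | ⟨h', _, hy⟩ <;>
    simp only [Prod.mk.injEq] at hx hy
  all_goals first
    | exact h.trans h'.symm
    | exact (k1 _ _ hx.1 hy.1).elim
    | exact (k1 _ _ hx.2 hy.2).elim
    | (obtain ⟨e1, e2⟩ := hx; obtain ⟨e3, e4⟩ := hy; exfalso
       first
        | exact k2 _ (e1.symm.trans e3)
        | exact k2 _ (e3.symm.trans e1)
        | exact k2 _ (e1.trans e3)
        | exact k2 _ (e3.trans e1))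

/-! ### Orientation -/

def hd (x : E L) (o s : Bool) : V L :=
  if x.2 then (if s = o then x.1 else (x.1.1, x.1.2 + 1))
  else (if s = o then (x.1.1 + 1, x.1.2) else x.1)

def pc (x : E L) (o : Bool) : V L :=
  if x.2 then (x.1.1 - z L o, x.1.2) else (x.1.1, x.1.2 - z L o)

namespace St

def fo (S : St L) : Bool := if S.b then S.x else S.y
def go (S : St L) (m : Bool) : Bool := if m then !S.x else !S.y

lemma hf_eq (S : St L) : S.hf = hd S.f S.fo S.side := by
  rcases S with ⟨⟨c1, c2⟩, x, y, b⟩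
  cases x <;> cases y <;> cases b <;> simp [hf, f, hd, side, fo, eh, ev]

lemma v_eq (S : St L) (m : Bool) : (S.next m).v = hd (S.g m) (S.go m) (S.next m).side := by
  rcases S with ⟨⟨c1, c2⟩, x, y, b⟩
  cases x <;> cases y <;> cases m <;> simp [v, g, hd, side, go, next, eh, ev]

lemma pc_f (S : St L) : pc S.f S.fo = S.c := by
  rcases S with ⟨⟨c1, c2⟩, x, y, b⟩
  cases x <;> cases y <;> cases b <;> simp [f, pc, fo, eh, ev]

lemma pc_g (S : St L) (m : Bool) : pc (S.g m) (S.go m) = S.c := by
  rcases S with ⟨⟨c1, c2⟩, x, y, b⟩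
  cases x <;> cases y <;> cases m <;> simp [g, pc, go, eh, ev]

lemma next_c_ne (h1 : (1 : ZMod L) ≠ 0) (S : St L) (m : Bool) : (S.next m).c ≠ S.c := by
  rcases S with ⟨⟨c1, c2⟩, x, y, b⟩
  cases x <;> cases y <;> cases m <;> simp [next, h1]

end St

lemma hd_eq {x : E L} {o o' s s' : Bool} (ho : o ≠ o') (hs : s ≠ s') : hd x o s = hd x o' s' := by
  cases o <;> cases o' <;> cases s <;> cases s' <;> simp_all [hd]

/-! ### Walks -/

/-- The data produced by flipping plaquettes. -/
structure Walk (L : ℕ) [NeZero L] where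
  S : ℕ → St L
  J : ℕ → Ch L
  next : ∀ t, (S t).next (S (t + 1)).b = S (t + 1)
  J_next : ∀ t, J (t + 1) = J t + pl (S t).c
  Je : ∀ t, J t (S t).e = 1
  Jf : ∀ t, J t (S t).f = 1
  Jg : ∀ t, J t ((S t).g (S (t + 1)).b) = 0
  Je' : ∀ t, J t ((S t).e' (S (t + 1)).b) = 0
  cons : ∀ t F, bd F = 0 → 0 ≤ wt (J t) F
  N : ℕ
  hN : 0 < N
  S_per : ∀ t, S (t + N) = S t
  h1 : (1 : ZMod L) ≠ 0
  h2 : (1 + 1 : ZMod L) ≠ 0

namespace Walk

variable [NeZero L] (W : Walk L)

def c (t : ℕ) : V L := (W.S t).c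
def e (t : ℕ) : E L := (W.S t).e
def f (t : ℕ) : E L := (W.S t).f
def g (t : ℕ) : E L := (W.S t).g (W.S (t + 1)).b
def σ (t : ℕ) : Bool := (W.S t).side
def K (t : ℕ) : Ch L := W.J t + dl (W.e t)

lemma e_succ (t : ℕ) : (W.S t).e' (W.S (t + 1)).b = W.e (t + 1) := by
  rw [← St.next_e, W.next]
  rfl

lemma e_ne_f (t : ℕ) : W.e t ≠ W.f t := DegreeOne.e_ne_f _
lemma e_ne_g (t : ℕ) : W.e t ≠ W.g t := DegreeOne.e_ne_g W.h1 _ _
lemma f_ne_g (t : ℕ) : W.f t ≠ W.g t := DegreeOne.f_ne_g W.h1 _ _
lemma e_ne_e (t : ℕ) : W.e t ≠ W.e (t + 1) := by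
  rw [← W.e_succ]; exact DegreeOne.e_ne_e' W.h1 _ _
lemma f_ne_e (t : ℕ) : W.f t ≠ W.e (t + 1) := by
  rw [← W.e_succ]; exact DegreeOne.f_ne_e' W.h1 _ _
lemma g_ne_e (t : ℕ) : W.g t ≠ W.e (t + 1) := by
  rw [← W.e_succ]; exact DegreeOne.g_ne_e' _ _

lemma inPe (t : ℕ) : inP (W.c t) (W.e t) := inP_e _
lemma inPf (t : ℕ) : inP (W.c t) (W.f t) := inP_f _
lemma inPg (t : ℕ) : inP (W.c t) (W.g t) := inP_g _ _
lemma inPe' (t : ℕ) : inP (W.c t) (W.e (t + 1)) := by
  rw [← W.e_succ]; exact inP_e' _ _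

lemma inP_cases {t : ℕ} {x : E L} (h : inP (W.c t) x) :
    x = W.e t ∨ x = W.f t ∨ x = W.g t ∨ x = W.e (t + 1) := by
  rw [← W.e_succ]
  exact DegreeOne.inP_cases _ h

lemma c_succ_ne (t : ℕ) : W.c (t + 1) ≠ W.c t := by
  unfold c
  rw [← W.next]
  exact St.next_c_ne W.h1 _ _

lemma pl_eq (t : ℕ) : pl (W.c t) = dl (W.e t) + dl (W.f t) + dl (W.g t) + dl (W.e (t + 1)) := by
  rw [← W.e_succ]
  exact St.pl_eq _ _

lemma K_e (t : ℕ) : W.K t (W.e t) = 0 := by
  show W.J t (W.e t) + dl (W.e t) (W.e t) = 0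
  rw [dl_self]
  have := W.Je t
  unfold e
  rw [this]
  decide

lemma K_f (t : ℕ) : W.K t (W.f t) = 1 := by
  show W.J t (W.f t) + dl (W.e t) (W.f t) = 1
  rw [dl_ne (W.e_ne_f t).symm]
  have := W.Jf t
  unfold f
  rw [this, add_zero]

lemma K_g (t : ℕ) : W.K t (W.g t) = 0 := by
  show W.J t (W.g t) + dl (W.e t) (W.g t) = 0
  rw [dl_ne (W.e_ne_g t).symm]
  have := W.Jg t
  unfold g
  rw [this, add_zero]

lemma J_eq (t : ℕ) : W.J t = W.K t + dl (W.e t) := by
  unfold K
  rw [add_assoc, add_self2, add_zero]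

lemma K_next (t : ℕ) : W.K (t + 1) = W.K t + dl (W.f t) + dl (W.g t) := by
  have h : W.K (t + 1) = W.J t + pl (W.c t) + dl (W.e (t + 1)) := by
    unfold K
    rw [W.J_next]
    rfl
  rw [h, W.pl_eq, W.J_eq]
  have h2 : W.K t + dl (W.e t) + (dl (W.e t) + dl (W.f t) + dl (W.g t) + dl (W.e (t + 1))) +
      dl (W.e (t + 1)) = W.K t + dl (W.f t) + dl (W.g t) + (dl (W.e t) + dl (W.e t)) +
      (dl (W.e (t + 1)) + dl (W.e (t + 1))) := by abel
  rw [h2, add_self2, add_self2, add_zero, add_zero]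

lemma K_stay {t : ℕ} {x : E L} (hf : x ≠ W.f t) (hg : x ≠ W.g t) : W.K (t + 1) x = W.K t x := by
  rw [W.K_next]
  simp [dl_ne hf, dl_ne hg]

lemma K_f' (t : ℕ) : W.K (t + 1) (W.f t) = 0 := by
  rw [W.K_next]
  simp only [Pi.add_apply, dl_self, W.K_f, dl_ne (W.f_ne_g t)]
  decide

lemma K_g' (t : ℕ) : W.K (t + 1) (W.g t) = 1 := by
  rw [W.K_next]
  simp only [Pi.add_apply, dl_self, W.K_g, dl_ne (W.f_ne_g t).symm]
  decide

/-- `x` is touched at time `k` on the side `ρ`. -/
def T (ρ : Bool) (k : ℕ) (x : E L) : Prop :=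
  (x = W.f k ∧ W.σ k = ρ) ∨ (x = W.g k ∧ W.σ (k + 1) = ρ)

def A (k : ℕ) (ρ : Bool) : Ch L :=
  (if W.σ k = ρ then dl (W.f k) else 0) + (if W.σ (k + 1) = ρ then dl (W.g k) else 0)

def zz (ρ : Bool) (t : ℕ) : V L := (W.S t).zz ρ

lemma bd_A (k : ℕ) (ρ : Bool) : bd (W.A k ρ) = dl (W.zz ρ k) + dl (W.zz ρ (k + 1)) := by
  have := St.bd_A (W.S k) (W.S (k + 1)).b ρ
  rw [W.next] at this
  unfold zz
  rw [← this]
  unfold St.A
  rw [W.next]
  rfl

def SS (ρ : Bool) (a t : ℕ) : Ch L := ∑ k ∈ Ico a t, W.A k ρ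

lemma SS_succ (ρ : Bool) {a t : ℕ} (h : a ≤ t) : W.SS ρ a (t + 1) = W.SS ρ a t + W.A t ρ := by
  unfold SS
  rw [Finset.sum_Ico_succ_top h]

lemma SS_self (ρ : Bool) (a : ℕ) : W.SS ρ a a = 0 := by
  simp [SS]

lemma bd_SS (ρ : Bool) {a t : ℕ} (h : a ≤ t) :
    bd (W.SS ρ a t) = dl (W.zz ρ a) + dl (W.zz ρ t) := by
  induction t, h using Nat.le_induction with
  | base => rw [SS_self, bd_zero, add_self2]
  | succ t h ih =>
    rw [W.SS_succ ρ h, bd_add, ih, bd_A]
    have : dl (W.zz ρ a) + dl (W.zz ρ t) + (dl (W.zz ρ t) + dl (W.zz ρ (t + 1))) =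
      dl (W.zz ρ a) + dl (W.zz ρ (t + 1)) + (dl (W.zz ρ t) + dl (W.zz ρ t)) := by abel
    rw [this, add_self2, add_zero]

lemma A_zero {ρ : Bool} {k : ℕ} {x : E L} (h : ¬ W.T ρ k x) : W.A k ρ x = 0 := by
  unfold T at h
  push Not at h
  unfold A
  by_cases h1 : x = W.f k
  · have h2 := h.1 h1
    have h3 : x ≠ W.g k := by rw [h1]; exact W.f_ne_g k
    rw [if_neg h2]
    split_ifs
    · simp [dl_ne h3]
    · simp
  · by_cases h3 : x = W.g k
    · have h4 := h.2 h3
      rw [if_neg h4]
      split_ifs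
      · simp [dl_ne h1]
      · simp
    · split_ifs <;> simp [dl_ne h1, dl_ne h3]

lemma SS_zero {ρ : Bool} {a t : ℕ} {x : E L} (h : ∀ k, a ≤ k → k < t → ¬ W.T ρ k x) :
    W.SS ρ a t x = 0 := by
  unfold SS
  rw [Finset.sum_apply]
  apply Finset.sum_eq_zero
  intro k hk
  rw [Finset.mem_Ico] at hk
  exact W.A_zero (h k hk.1 hk.2)

lemma wt_SS {ρ : Bool} (F : Ch L) {a t : ℕ} (h : a ≤ t)
    (hF : ∀ m, a ≤ m → m < t → (W.σ m = ρ ∨ (F + W.SS ρ a m) (W.f m) = 0) ∧
      (W.σ (m + 1) = ρ ∨ (F + W.SS ρ a m) (W.g m) = 0)) :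
    wt (W.K t) (F + W.SS ρ a t) = wt (W.K a) F +
      ((if W.σ a = ρ then 1 else 0) - (if W.σ t = ρ then 1 else 0)) := by
  induction t, h using Nat.le_induction with
  | base => simp [SS_self]
  | succ t h ih =>
    rw [W.SS_succ ρ h, ← add_assoc, W.K_next]
    unfold A
    rw [wt_step (W.f_ne_g t) (W.K_f t) (W.K_g t) _ _ (hF t h (Nat.lt_succ_self t)).1
      (hF t h (Nat.lt_succ_self t)).2, ih (fun m hm hm' => hF m hm (Nat.lt_succ_of_lt hm'))]
    ring

lemma T_inP {ρ : Bool} {k : ℕ} {x : E L} (h : W.T ρ k x) : inP (W.c k) x := by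
  rcases h with ⟨rfl, _⟩ | ⟨rfl, _⟩
  · exact W.inPf k
  · exact W.inPg k

def v (t : ℕ) : V L := (W.S t).v
def u (t : ℕ) : V L := (W.S t).u
def hf (t : ℕ) : V L := (W.S t).hf

lemma zz_pos {ρ : Bool} {t : ℕ} (h : W.σ t = ρ) : W.zz ρ t = W.v t := if_pos h
lemma zz_neg {ρ : Bool} {t : ℕ} (h : W.σ t ≠ ρ) : W.zz ρ t = W.u t := if_neg h

lemma bd_e (t : ℕ) : bd (dl (W.e t)) = dl (W.v t) + dl (W.u t) := St.bd_e _
lemma bd_f (t : ℕ) : bd (dl (W.f t)) = dl (W.v t) + dl (W.hf t) := St.bd_f _

lemma bd_ge (t : ℕ) : bd (dl (W.g t)) + bd (dl (W.e (t + 1))) = dl (W.hf t) + dl (W.u t) := by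
  have h : bd (pl (W.c t)) = 0 := bd_pl _
  rw [W.pl_eq, bd_add, bd_add, bd_add, bd_e, bd_f] at h
  have h2 : dl (W.v t) + dl (W.u t) + (dl (W.v t) + dl (W.hf t)) + bd (dl (W.g t)) +
      bd (dl (W.e (t + 1))) = (dl (W.v t) + dl (W.v t)) + ((dl (W.hf t) + dl (W.u t)) +
        (bd (dl (W.g t)) + bd (dl (W.e (t + 1))))) := by abel
  rw [h2, add_self2, zero_add] at h
  have h3 : dl (W.hf t) + dl (W.u t) = dl (W.hf t) + dl (W.u t) + 0 := by rw [add_zero]
  rw [h3, ← add_self2 (bd (dl (W.g t)) + bd (dl (W.e (t + 1)))), ← add_assoc, h, zero_add]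

end Walk

lemma bneg : ∀ s ρ : Bool, s ≠ ρ → s = !ρ := by decide
lemma bneg' : ∀ s ρ : Bool, s = !ρ → s ≠ ρ := by decide

namespace Walk

variable [NeZero L] (W : Walk L)

lemma hf_hd (t : ℕ) : W.hf t = hd (W.f t) (W.S t).fo (W.σ t) := St.hf_eq _

lemma v_hd (t : ℕ) :
    W.v (t + 1) = hd (W.g t) ((W.S t).go (W.S (t + 1)).b) (W.σ (t + 1)) := by
  have := St.v_eq (W.S t) (W.S (t + 1)).b
  rw [W.next] at this
  exact this

lemma wt_neg {t : ℕ} {F : Ch L} (hbd : bd (F + dl (W.e t)) = 0) (hw : wt (W.K t) F ≤ 0) :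
    False := by
  have h := W.cons t _ hbd
  rw [W.J_eq, wt_add_dl (W.K_e t)] at h
  omega

lemma wt_neg' {t : ℕ} {F : Ch L} (hbd : bd F = 0) (hw : wt (W.K t) F < 0) :
    False := by
  have h := W.cons t _ hbd
  rw [W.J_eq] at h
  have h2 := wt_le (F := F) (W.K_e t)
  omega

/-- An edge is never touched on different sides within a window of distinct plaquettes. -/
lemma nodiff {p : ℕ} (hp : ∀ i j, i < j → j - i < p → W.c i ≠ W.c j) :
    ∀ d, d < p → ∀ k ρ x, 0 < d → W.T ρ k x → W.T (!ρ) (k + d) x → False := by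
  intro d
  induction d using Nat.strong_induction_on with
  | _ d IH =>
  intro hdp k ρ x hd0 hk hl
  obtain ⟨l, hl'⟩ : ∃ l, l = k + d := ⟨_, rfl⟩
  rw [← hl'] at hl
  have hkl : k < l := by omega
  have IH' : ∀ i j ρ' y, i < j → j - i < d → W.T ρ' i y → W.T (!ρ') j y → False := by
    intro i j ρ' y hij hlt h1 h2
    have : j = i + (j - i) := by omega
    rw [this] at h2
    exact IH (j - i) hlt (by omega) i ρ' y (by omega) h1 h2
  have hcne : W.c k ≠ W.c l := hp k l hkl (by omega)
  have hxk' : inP (W.c k) x := W.T_inP hk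
  have hxl' : inP (W.c l) x := W.T_inP hl
  have between : ∀ m, k < m → m < l → ¬ inP (W.c m) x := by
    intro m h1 h2 h3
    rcases inP_three hxk' h3 hxl' with h | h | h
    · exact hp k m h1 (by omega) h
    · exact hcne h
    · exact hp m l h2 (by omega) h
  have stay : ∀ m, k + 1 ≤ m → m ≤ l → W.K m x = W.K (k + 1) x := by
    intro m hm
    induction m, hm using Nat.le_induction with
    | base => intro _; rfl
    | succ m hm ih =>
      intro hml
      rw [← ih (by omega)]
      apply W.K_stay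
      · intro h
        exact between m (by omega) (by omega) (h ▸ W.inPf m)
      · intro h
        exact between m (by omega) (by omega) (h ▸ W.inPg m)
  have hneg : ∀ s : Bool, s ≠ ρ → s = !ρ := fun s => bneg s ρ
  have hneg' : ∀ s : Bool, s = !ρ → s ≠ ρ := fun s => bneg' s ρ
  rcases hk with ⟨hxk, hσk⟩ | ⟨hxk, hσk⟩
  · have hK : W.K l x = 0 := by
      rw [stay l hkl le_rfl, hxk]
      exact W.K_f' k
    rcases hl with ⟨hxl, hσl⟩ | ⟨hxl, hσl⟩
    · rw [hxl, W.K_f] at hK
      exact absurd hK (by decide)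
    · -- the first case
      have hTk : W.T ρ k x := Or.inl ⟨hxk, hσk⟩
      have sub : ∀ m, k ≤ m → m ≤ l → ∀ y, y ≠ x → W.T (!ρ) m y → W.SS ρ k m y = 0 := by
        intro m hkm hml y hyx hT
        apply W.SS_zero
        intro i hi him hTi
        by_cases hd : m - i < d
        · exact IH' i m ρ y him hd hTi hT
        · have e1 : i = k := by omega
          have e2 : m = l := by omega
          subst e1
          subst e2
          exact hyx (inP_two W.h1 W.h2 hcne (W.T_inP hTi) (W.T_inP hT) hxk' hxl')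
      have hw := W.wt_SS (ρ := ρ) (dl x) (a := k) (t := l + 1) (by omega) (by
        intro m hkm hml
        have hml : m ≤ l := by omega
        constructor
        · by_cases h : W.σ m = ρ
          · exact Or.inl h
          · right
            have hT : W.T (!ρ) m (W.f m) := Or.inl ⟨rfl, hneg _ h⟩
            by_cases hx : W.f m = x
            · exfalso
              rcases Nat.lt_trichotomy m l with h3 | h3 | h3
              · rcases Nat.eq_or_lt_of_le hkm with h4 | h4
                · subst h4; exact h hσk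
                · exact between m h4 h3 (hx ▸ W.inPf m)
              · subst h3
                rw [hxl] at hx
                exact W.f_ne_g m hx
              · omega
            · rw [Pi.add_apply, dl_ne hx, sub m hkm hml _ hx hT, add_zero]
        · by_cases h : W.σ (m + 1) = ρ
          · exact Or.inl h
          · right
            have hT : W.T (!ρ) m (W.g m) := Or.inr ⟨rfl, hneg _ h⟩
            by_cases hx : W.g m = x
            · rcases Nat.lt_trichotomy m l with h3 | h3 | h3
              · exfalso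
                rcases Nat.eq_or_lt_of_le hkm with h4 | h4
                · subst h4
                  exact W.f_ne_g k (hxk.symm.trans hx.symm)
                · exact between m h4 h3 (hx ▸ W.inPg m)
              · subst h3
                rw [hx, Pi.add_apply, dl_self]
                have h5 : W.SS ρ k m = W.A k ρ + W.SS ρ (k + 1) m := by
                  unfold SS
                  rw [Finset.sum_eq_sum_Ico_succ_bot hkl]
                have h6 : W.SS ρ (k + 1) m x = 0 := by
                  apply W.SS_zero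
                  intro i hi him hTi
                  exact between i (by omega) him (W.T_inP hTi)
                have h7 : W.A k ρ x = 1 := by
                  unfold A
                  rw [if_pos hσk, Pi.add_apply, ← hxk, dl_self]
                  have : x ≠ W.g k := by rw [hxk]; exact W.f_ne_g k
                  split_ifs
                  · rw [dl_ne this, add_zero]
                  · simp
                rw [h5, Pi.add_apply, h6, h7]
                decide
              · omega
            · rw [Pi.add_apply, dl_ne hx, sub m hkm hml _ hx hT, add_zero])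
      rw [wt_dl (by rw [hxk]; exact W.K_f k), if_pos hσk, if_neg (hneg' _ hσl)] at hw
      apply W.wt_neg (t := l + 1) (F := dl x + W.SS ρ k (l + 1)) ?_ (by rw [hw]; norm_num)
      have hhd : W.hf k = W.v (l + 1) := by
        rw [W.hf_hd, W.v_hd, ← hxk, ← hxl]
        apply hd_eq
        · intro h
          apply hcne
          have e1 : pc (W.f k) (W.S k).fo = W.c k := St.pc_f _
          have e2 : pc (W.g l) ((W.S l).go (W.S (l + 1)).b) = W.c l := St.pc_g _ _
          rw [← e1, ← e2, ← hxk, ← hxl, h]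
        · rw [hσk, hσl]
          cases ρ <;> simp
      rw [bd_add, bd_add, W.bd_SS ρ (by omega), W.bd_e, W.zz_pos hσk, W.zz_neg (hneg' _ hσl), hxk,
        W.bd_f, hhd]
      have : dl (W.v k) + dl (W.v (l + 1)) + (dl (W.v k) + dl (W.u (l + 1))) +
          (dl (W.v (l + 1)) + dl (W.u (l + 1))) = (dl (W.v k) + dl (W.v k)) +
          (dl (W.v (l + 1)) + dl (W.v (l + 1))) + (dl (W.u (l + 1)) + dl (W.u (l + 1))) := by abel
      rw [this]
      simp only [add_self2, add_zero]
  · have hK : W.K l x = 1 := by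
      rw [stay l hkl le_rfl, hxk]
      exact W.K_g' k
    rcases hl with ⟨hxl, hσl⟩ | ⟨hxl, hσl⟩
    · -- the second case
      have hw := W.wt_SS (ρ := ρ) 0 (a := k + 1) (t := l) (by omega) (by
        intro m hkm hml
        have hz : ∀ y, W.T (!ρ) m y → (0 + W.SS ρ (k + 1) m) y = 0 := by
          intro y hT
          rw [zero_add]
          apply W.SS_zero
          intro i hi him hTi
          exact IH' i m ρ y him (by omega) hTi hT
        constructor
        · by_cases h : W.σ m = ρ
          · exact Or.inl h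
          · exact Or.inr (hz _ (Or.inl ⟨rfl, hneg _ h⟩))
        · by_cases h : W.σ (m + 1) = ρ
          · exact Or.inl h
          · exact Or.inr (hz _ (Or.inr ⟨rfl, hneg _ h⟩)))
      rw [wt_zero, zero_add, zero_add, if_pos hσk, if_neg (hneg' _ hσl)] at hw
      have hfl : W.SS ρ (k + 1) l (W.f l) = 0 := by
        apply W.SS_zero
        intro i hi him hTi
        rw [← hxl] at hTi
        exact between i (by omega) him (W.T_inP hTi)
      have hw2 := wt_step (W.f_ne_g l) (W.K_f l) (W.K_g l) False True (F := W.SS ρ (k + 1) l)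
        (Or.inr hfl) (Or.inl trivial)
      rw [← W.K_next, hw, if_neg not_false, if_pos trivial, if_neg not_false, if_pos trivial,
        zero_add] at hw2
      apply W.wt_neg (t := l + 1) (F := W.SS ρ (k + 1) l + dl (W.g l)) ?_ (by rw [hw2]; norm_num)
      have hhd : W.v (k + 1) = W.hf l := by
        rw [W.hf_hd, W.v_hd, ← hxk, ← hxl]
        apply hd_eq
        · intro h
          apply hcne
          have e1 : pc (W.f l) (W.S l).fo = W.c l := St.pc_f _
          have e2 : pc (W.g k) ((W.S k).go (W.S (k + 1)).b) = W.c k := St.pc_g _ _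
          rw [← e1, ← e2, ← hxk, ← hxl, h]
        · rw [hσk, hσl]
          cases ρ <;> simp
      rw [bd_add, bd_add, add_assoc, W.bd_ge, W.bd_SS ρ (by omega), W.zz_pos hσk,
        W.zz_neg (hneg' _ hσl), hhd]
      have : dl (W.hf l) + dl (W.u l) + (dl (W.hf l) + dl (W.u l)) =
        (dl (W.hf l) + dl (W.hf l)) + (dl (W.u l) + dl (W.u l)) := by abel
      rw [this]
      simp only [add_self2, add_zero]
    · rw [hxl, W.K_g] at hK
      exact absurd hK (by decide)

end Walk

lemma St.turn_back (h1 : (1 : ZMod L) ≠ 0) {S S' : St L} (hc : S'.c = S.c) (he : S'.e = S.f)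
    (hfe : S'.f ≠ S.e) : S'.side = S.side ∧ S'.v = S.hf := by
  rcases S with ⟨⟨c1, c2⟩, x, y, b⟩
  rcases S' with ⟨⟨c1', c2'⟩, x', y', b'⟩
  simp only [Prod.mk.injEq] at hc
  obtain ⟨rfl, rfl⟩ := hc
  cases b <;> cases b' <;> cases x <;> cases y <;> cases x' <;> cases y' <;>
    simp_all [e, f, side, v, St.hf, eh, ev]

lemma St.same_stem (h1 : (1 : ZMod L) ≠ 0) {S S' : St L} (hc : S'.c = S.c) (he : S'.e = S.e) :
    (∀ ρ, S'.zz ρ = S.zz ρ) ∧ (S'.side = S.side → S' = S) := by
  rcases S with ⟨⟨c1, c2⟩, x, y, b⟩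
  rcases S' with ⟨⟨c1', c2'⟩, x', y', b'⟩
  simp only [Prod.mk.injEq] at hc
  obtain ⟨rfl, rfl⟩ := hc
  constructor
  · intro ρ
    cases ρ <;> cases b <;> cases b' <;> cases x <;> cases y <;> cases x' <;> cases y' <;>
      simp_all [e, side, v, u, zz, eh, ev]
  · cases b <;> cases b' <;> cases x <;> cases y <;> cases x' <;> cases y' <;>
      simp_all [e, side, eh, ev]

lemma St.flip (S : St L) (m : Bool) : xor (S.next m).x (S.next m).y = !(xor S.x S.y) := by
  rcases S with ⟨⟨c1, c2⟩, x, y, b⟩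
  cases m <;> cases x <;> cases y <;> simp [next]

/-- A set of vertices closed under the two unit steps is everything. -/
lemma cover [NeZero L] (A : V L → Prop) (c0 : V L) (h0 : A c0)
    (hA1 : ∀ c, A c → A (c.1 + 1, c.2)) (hA2 : ∀ c, A c → A (c.1, c.2 + 1)) : ∀ c, A c := by
  have h1 : ∀ n : ℕ, ∀ c, A c → A (c.1 + n, c.2) := by
    intro n
    induction n with
    | zero => intro c hc; simpa using hc
    | succ n ih =>
      intro c hc
      have := hA1 _ (ih c hc)
      simp only at this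
      push_cast
      rw [← add_assoc]
      exact this
  have h2 : ∀ n : ℕ, ∀ c, A c → A (c.1, c.2 + n) := by
    intro n
    induction n with
    | zero => intro c hc; simpa using hc
    | succ n ih =>
      intro c hc
      have := hA2 _ (ih c hc)
      simp only at this
      push_cast
      rw [← add_assoc]
      exact this
  rintro ⟨c1, c2⟩
  have := h2 (c2 - c0.2).val _ (h1 (c1 - c0.1).val _ h0)
  simp only [ZMod.natCast_val, ZMod.cast_id', id] at this
  simpa using this

namespace Walk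

variable [NeZero L] (W : Walk L)

lemma revisit {p : ℕ} (hp : ∀ i j, i < j → j - i < p → W.c i ≠ W.c j) (hp0 : 0 < p) {b : ℕ}
    (hb : W.c (b + 1 + p) = W.c (b + 1)) : W.e (b + 1 + p) = W.e (b + 1) := by
  obtain ⟨a, ha⟩ : ∃ a, a = b + 1 := ⟨_, rfl⟩
  rw [← ha] at hb ⊢
  have hp2 : 2 ≤ p := by
    by_contra h
    have : p = 1 := by omega
    subst this
    exact W.c_succ_ne a hb
  obtain ⟨q, hq⟩ : ∃ q, q + 1 = a + p := ⟨a + p - 1, by omega⟩
  have hqa : W.c a ≠ W.c q := hp a q (by omega) (by omega)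
  have hexit : inP (W.c q) (W.e (a + p)) := by
    rw [← hq]; exact W.inPe' q
  have hin : inP (W.c a) (W.e (a + p)) := by
    rw [← hb]; exact W.inPe _
  have ncase : ∀ m, a < m → m < a + p → inP (W.c m) (W.e (a + p)) → m = q := by
    intro m h1 h2 h3
    rcases inP_three hin h3 hexit with h | h | h
    · exact absurd h (hp a m h1 (by omega))
    · exact absurd h hqa
    · by_contra hne
      exact hp m q (by omega) (by omega) h
  rcases W.inP_cases hin with h | h | h | h
  · exact h
  · exfalso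
    -- through `f a`
    have hKe : ∀ m, a ≤ m → m ≤ a + p → W.K m (W.e a) = 0 := by
      intro m hm
      induction m, hm using Nat.le_induction with
      | base => intro _; exact W.K_e a
      | succ m hm ih =>
        intro hmp
        have key : inP (W.c m) (W.e a) → a < m → False := by
          intro h3 ham
          have hb' : inP (W.c b) (W.e a) := by rw [ha]; exact W.inPe' b
          have hne : W.c b ≠ W.c a := by rw [ha]; exact (W.c_succ_ne b).symm
          rcases inP_three hb' (W.inPe a) h3 with h4 | h4 | h4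
          · exact hne h4
          · have : m = q := by
              by_contra hmq
              exact hp b m (by omega) (by omega) h4
            subst this
            have := inP_two W.h1 W.h2 hqa (W.inPe a) h3 hin hexit
            rw [h] at this
            exact W.e_ne_f a this
          · exact hp a m ham (by omega) h4
        rw [W.K_stay, ih (by omega)]
        · intro h3
          rcases Nat.eq_or_lt_of_le hm with h4 | h4
          · subst h4; exact W.e_ne_f a h3
          · exact key (h3 ▸ W.inPf m) h4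
        · intro h3
          rcases Nat.eq_or_lt_of_le hm with h4 | h4
          · subst h4; exact W.e_ne_g a h3
          · exact key (h3 ▸ W.inPg m) h4
    have hJ : W.J (a + p) (W.e a) = 0 := by
      rw [W.J_eq, Pi.add_apply, hKe _ (by omega) le_rfl, h, dl_ne (W.e_ne_f a), add_zero]
    have hfe : (W.S (a + p)).f ≠ (W.S a).e := by
      intro h3
      have := W.Jf (a + p)
      rw [h3] at this
      have h4 : W.J (a + p) (W.S a).e = 0 := hJ
      rw [h4] at this
      exact absurd this (by decide)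
    have hs := St.turn_back W.h1 (S := W.S a) (S' := W.S (a + p)) hb h hfe
    have hσ : W.σ (a + p) = W.σ a := hs.1
    have hv : W.v (a + p) = W.hf a := hs.2
    have hne : ∀ m, a < m → m < a + p → W.f m ≠ W.f a ∧ W.g m ≠ W.f a := by
      intro m h1 h2
      constructor
      · intro h3
        have h4 := ncase m h1 h2 (by rw [h, ← h3]; exact W.inPf m)
        subst h4
        apply W.f_ne_e m
        rw [hq, h, h3]
      · intro h3
        have h4 := ncase m h1 h2 (by rw [h, ← h3]; exact W.inPg m)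
        subst h4
        apply W.g_ne_e m
        rw [hq, h, h3]
    have hw := W.wt_SS (ρ := W.σ a) (dl (W.f a)) (a := a) (t := a + p) (by omega) (by
      intro m hkm hml
      have hz : ∀ y, W.T (!(W.σ a)) m y → W.SS (W.σ a) a m y = 0 := by
        intro y hT
        apply W.SS_zero
        intro i hi him hTi
        have : m = i + (m - i) := by omega
        rw [this] at hT
        exact W.nodiff hp (m - i) (by omega) i _ y (by omega) hTi hT
      constructor
      · by_cases h3 : W.σ m = W.σ a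
        · exact Or.inl h3
        · right
          have hT : W.T (!(W.σ a)) m (W.f m) := Or.inl ⟨rfl, bneg _ _ h3⟩
          have hm : a < m := by
            rcases Nat.eq_or_lt_of_le hkm with h4 | h4
            · subst h4; exact absurd rfl h3
            · exact h4
          rw [Pi.add_apply, dl_ne (hne m hm hml).1, hz _ hT, add_zero]
      · by_cases h3 : W.σ (m + 1) = W.σ a
        · exact Or.inl h3
        · right
          have hT : W.T (!(W.σ a)) m (W.g m) := Or.inr ⟨rfl, bneg _ _ h3⟩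
          have hm : W.g m ≠ W.f a := by
            rcases Nat.eq_or_lt_of_le hkm with h4 | h4
            · subst h4; exact (W.f_ne_g a).symm
            · exact (hne m h4 hml).2
          rw [Pi.add_apply, dl_ne hm, hz _ hT, add_zero])
    rw [wt_dl (W.K_f a), if_pos rfl, if_pos hσ] at hw
    apply W.wt_neg' (t := a + p) (F := dl (W.f a) + W.SS (W.σ a) a (a + p)) ?_
      (by rw [hw]; norm_num)
    rw [bd_add, W.bd_SS _ (by omega), W.bd_f, W.zz_pos rfl, W.zz_pos hσ, hv]
    have : dl (W.v a) + dl (W.hf a) + (dl (W.v a) + dl (W.hf a)) =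
      (dl (W.v a) + dl (W.v a)) + (dl (W.hf a) + dl (W.hf a)) := by abel
    rw [this]
    simp only [add_self2, add_zero]
  · exfalso
    -- through `g a`
    have hKg : ∀ m, a + 1 ≤ m → m ≤ q → W.K m (W.g a) = 1 := by
      intro m hm
      induction m, hm using Nat.le_induction with
      | base => intro _; exact W.K_g' a
      | succ m hm ih =>
        intro hmp
        rw [W.K_stay, ih (by omega)]
        · intro h3
          have := ncase m (by omega) (by omega) (by rw [h, h3]; exact W.inPf m)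
          omega
        · intro h3
          have := ncase m (by omega) (by omega) (by rw [h, h3]; exact W.inPg m)
          omega
    have h3 := hKg q (by omega) le_rfl
    rw [← h, ← hq] at h3
    have h4 : W.J q (W.e (q + 1)) = 0 := by
      have := W.Je' q
      rw [W.e_succ] at this
      exact this
    unfold K at h3
    rw [Pi.add_apply, h4, dl_ne (W.e_ne_e q).symm] at h3
    exact absurd h3 (by decide)
  · exfalso
    rcases Nat.eq_or_lt_of_le hp2 with h3 | h3
    · subst h3
      exact W.e_ne_e (a + 1) h.symm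
    · have h4 := ncase (a + 1) (by omega) (by omega) (by rw [h]; exact W.inPe _)
      omega

lemma back {p : ℕ} (hp : ∀ i j, i < j → j - i < p → W.c i ≠ W.c j) (hp0 : 0 < p) {b : ℕ}
    (hb : W.c (b + 1 + p) = W.c (b + 1)) : W.c (b + p) = W.c b := by
  have he := W.revisit hp hp0 hb
  have h1 : inP (W.c (b + p)) (W.e (b + 1)) := by
    rw [← he]
    have := W.inPe' (b + p)
    have e : b + p + 1 = b + 1 + p := by omega
    rwa [e] at this
  have h2 : W.c (b + p) ≠ W.c (b + 1) := by
    rw [← hb]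
    have e : b + 1 + p = b + p + 1 := by omega
    rw [e]
    exact (W.c_succ_ne _).symm
  rcases inP_three h1 (W.inPe (b + 1)) (W.inPe' b) with h | h | h
  · exact absurd h h2
  · exact h
  · exact absurd h (W.c_succ_ne b)

lemma S_per_mul (m t : ℕ) : W.S (t + m * W.N) = W.S t := by
  induction m with
  | zero => simp
  | succ m ih =>
    have : t + (m + 1) * W.N = t + m * W.N + W.N := by ring
    rw [this, W.S_per, ih]

end Walk

namespace Walk

variable [NeZero L] (W : Walk L)

lemma exists_revisit : ∃ d, 0 < d ∧ ∃ t, W.c (t + d) = W.c t :=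
  ⟨W.N, W.hN, 0, by unfold c; rw [W.S_per]⟩

include W in
theorem contradiction (hL : Odd L) : False := by
  classical
  -- the minimal revisit length
  obtain ⟨p, ⟨hp0, t0, ht0⟩, hmin⟩ : ∃ p, (0 < p ∧ ∃ t, W.c (t + p) = W.c t) ∧
      ∀ d, d < p → ¬ (0 < d ∧ ∃ t, W.c (t + d) = W.c t) := by
    refine ⟨Nat.find W.exists_revisit, Nat.find_spec W.exists_revisit, ?_⟩
    intro d hd
    exact Nat.find_min W.exists_revisit hd
  have hp : ∀ i j, i < j → j - i < p → W.c i ≠ W.c j := by
    intro i j hij hlt h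
    apply hmin (j - i) hlt
    refine ⟨by omega, i, ?_⟩
    have : i + (j - i) = j := by omega
    rw [this, h]
  have hcper : ∀ m t, W.c (t + m * W.N) = W.c t := by
    intro m t
    unfold c
    rw [W.S_per_mul]
  -- all times
  have hall : ∀ t, W.c (t + p) = W.c t := by
    intro t
    have hbig : W.c (t0 + t * W.N + p) = W.c (t0 + t * W.N) := by
      have e : t0 + t * W.N + p = t0 + p + t * W.N := by ring
      rw [e, hcper, hcper, ht0]
    have hle : t ≤ t0 + t * W.N := by
      have := Nat.le_mul_of_pos_right t W.hN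
      omega
    have hdown : ∀ n, ∀ s, s + n = t0 + t * W.N → W.c (s + p) = W.c s := by
      intro n
      induction n with
      | zero => intro s hs; rw [add_zero] at hs; rw [hs]; exact hbig
      | succ n ih =>
        intro s hs
        exact W.back hp hp0 (ih (s + 1) (by omega))
    exact hdown (t0 + t * W.N - t) t (by omega)
  have hp2 : 2 ≤ p := by
    by_contra h
    have : p = 1 := by omega
    subst this
    exact W.c_succ_ne 0 (hall 0)
  have hstem : ∀ t, W.e (t + p) = W.e t := by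
    intro t
    have h1 := W.revisit hp hp0 (b := t + W.N - 1) (by
      have : t + W.N - 1 + 1 = t + W.N := by have := W.hN; omega
      rw [this]; exact hall _)
    have e1 : t + W.N - 1 + 1 = t + W.N := by have := W.hN; omega
    rw [e1] at h1
    have e2 : W.e (t + W.N + p) = W.e (t + p) := by
      have : t + W.N + p = t + p + W.N := by ring
      unfold e
      rw [this, W.S_per]
    have e3 : W.e (t + W.N) = W.e t := by
      unfold e
      rw [W.S_per]
    rw [← e2, h1, e3]
  have hS : ∀ t, W.S (t + p) = W.S t := by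
    intro a
    have hs := St.same_stem W.h1 (S := W.S a) (S' := W.S (a + p)) (hall a) (hstem a)
    apply hs.2
    by_contra hne
    have hw := W.wt_SS (ρ := W.σ (a + p)) 0 (a := a) (t := a + p) (by omega) (by
      intro m hkm hml
      have hz : ∀ y, W.T (!(W.σ (a + p))) m y → (0 + W.SS (W.σ (a + p)) a m) y = 0 := by
        intro y hT
        rw [zero_add]
        apply W.SS_zero
        intro i hi him hTi
        have : m = i + (m - i) := by omega
        rw [this] at hT
        exact W.nodiff hp (m - i) (by omega) i _ y (by omega) hTi hT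
      constructor
      · by_cases h3 : W.σ m = W.σ (a + p)
        · exact Or.inl h3
        · exact Or.inr (hz _ (Or.inl ⟨rfl, bneg _ _ h3⟩))
      · by_cases h3 : W.σ (m + 1) = W.σ (a + p)
        · exact Or.inl h3
        · exact Or.inr (hz _ (Or.inr ⟨rfl, bneg _ _ h3⟩)))
    have hne' : W.σ a ≠ W.σ (a + p) := fun h => hne h.symm
    rw [wt_zero, zero_add, if_neg hne', if_pos rfl] at hw
    apply W.wt_neg' (t := a + p) (F := W.SS (W.σ (a + p)) a (a + p)) ?_ (by rw [hw]; norm_num)
    rw [W.bd_SS _ (by omega)]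
    have : W.zz (W.σ (a + p)) (a + p) = W.zz (W.σ (a + p)) a := hs.1 _
    rw [this, add_self2]
  -- parity
  have hpar : Even p := by
    have hflip : ∀ n t, xor (W.S (t + n)).x (W.S (t + n)).y =
        xor (decide (Odd n)) (xor (W.S t).x (W.S t).y) := by
      intro n
      induction n with
      | zero => intro t; simp
      | succ n ih =>
        intro t
        have h1 : W.S (t + (n + 1)) = (W.S (t + n)).next (W.S (t + n + 1)).b := (W.next _).symm
        rw [h1, St.flip, ih]
        by_cases hn : Odd n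
        · have : ¬ Odd (n + 1) := by
            rw [Nat.not_odd_iff_even]; exact hn.add_one
          simp [hn, this]
        · have : Odd (n + 1) := by
            rw [Nat.not_odd_iff_even] at hn; exact hn.add_one
          simp [hn, this]
    have h := hflip p 0
    rw [hS] at h
    by_contra hodd
    rw [Nat.not_even_iff_odd] at hodd
    simp [hodd] at h
  -- every edge of a visited plaquette belongs to another visited plaquette
  have hnb : ∀ t x, inP (W.c t) x → ∃ m, inP (W.c m) x ∧ W.c t ≠ W.c m := by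
    intro t x hx
    rcases W.inP_cases hx with h | h | h | h
    · obtain ⟨q, hq⟩ : ∃ q, q + 1 = t + p := ⟨t + p - 1, by omega⟩
      refine ⟨q, ?_, hp t q (by omega) (by omega)⟩
      rw [h, ← hstem t, ← hq]
      exact W.inPe' q
    · by_contra hcon
      push Not at hcon
      have hK : ∀ m, t + 1 ≤ m → m ≤ t + p → W.K m x = 0 := by
        intro m hm
        induction m, hm using Nat.le_induction with
        | base => intro _; rw [h]; exact W.K_f' t
        | succ m hm ih =>
          intro hmp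
          have hne : W.c t ≠ W.c m := hp t m (by omega) (by omega)
          rw [W.K_stay, ih (by omega)]
          · intro h3
            exact hne (hcon m (h3 ▸ W.inPf m))
          · intro h3
            exact hne (hcon m (h3 ▸ W.inPg m))
      have h1 := hK (t + p) (by omega) le_rfl
      have h2 : W.f (t + p) = W.f t := by unfold f; rw [hS]
      rw [h, ← h2, W.K_f] at h1
      exact absurd h1 (by decide)
    · by_contra hcon
      push Not at hcon
      have hK : ∀ m, t + 1 ≤ m → m ≤ t + p → W.K m x = 1 := by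
        intro m hm
        induction m, hm using Nat.le_induction with
        | base => intro _; rw [h]; exact W.K_g' t
        | succ m hm ih =>
          intro hmp
          have hne : W.c t ≠ W.c m := hp t m (by omega) (by omega)
          rw [W.K_stay, ih (by omega)]
          · intro h3
            exact hne (hcon m (h3 ▸ W.inPf m))
          · intro h3
            exact hne (hcon m (h3 ▸ W.inPg m))
      have h1 := hK (t + p) (by omega) le_rfl
      have h2 : W.g (t + p) = W.g t := by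
        unfold g
        have e : t + p + 1 = t + 1 + p := by omega
        rw [hS, e, hS]
      rw [h, ← h2, W.K_g] at h1
      exact absurd h1 (by decide)
    · exact ⟨t + 1, by rw [h]; exact W.inPe _, (W.c_succ_ne t).symm⟩
  have hvis : ∀ v : V L, ∃ t, W.c t = v := by
    apply cover (fun v => ∃ t, W.c t = v) (W.c 0) ⟨0, rfl⟩
    · rintro _ ⟨t, rfl⟩
      obtain ⟨m, hm1, hm2⟩ := hnb t (ev (W.c t) true) ⟨true, Or.inr rfl⟩
      refine ⟨m, ?_⟩
      rcases inP_pair hm2 ⟨true, Or.inr rfl⟩ hm1 with ⟨h, _, _⟩ | ⟨h, _, _⟩ | ⟨_, _, h⟩ | ⟨h, _, _⟩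
      · exact absurd h.symm (eh_ne_ev _ _ _ _)
      · exact absurd h.symm (eh_ne_ev _ _ _ _)
      · exact h
      · exact absurd (ev_inj W.h1 h) (by decide)
    · rintro _ ⟨t, rfl⟩
      obtain ⟨m, hm1, hm2⟩ := hnb t (eh (W.c t) true) ⟨true, Or.inl rfl⟩
      refine ⟨m, ?_⟩
      rcases inP_pair hm2 ⟨true, Or.inl rfl⟩ hm1 with ⟨_, _, h⟩ | ⟨h, _, _⟩ | ⟨h, _, _⟩ | ⟨h, _, _⟩
      · exact h
      · exact absurd (eh_inj W.h1 h) (by decide)
      · exact absurd h (eh_ne_ev _ _ _ _)
      · exact absurd h (eh_ne_ev _ _ _ _)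
  -- counting
  have hcper' : ∀ m t, W.c (t + m * p) = W.c t := by
    intro m t
    induction m with
    | zero => simp
    | succ m ih =>
      have : t + (m + 1) * p = t + m * p + p := by ring
      rw [this, hall, ih]
  have hbij : Function.Bijective (fun i : Fin p => W.c i.val) := by
    constructor
    · intro i j hij
      by_contra hne
      rcases lt_or_gt_of_ne (fun h => hne (Fin.ext h) : i.val ≠ j.val) with h | h
      · exact hp _ _ h (by omega) hij
      · exact hp _ _ h (by omega) hij.symm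
    · intro v
      obtain ⟨t, rfl⟩ := hvis v
      refine ⟨⟨t % p, Nat.mod_lt _ hp0⟩, ?_⟩
      show W.c (t % p) = W.c t
      rw [← hcper' (t / p) (t % p)]
      congr 1
      exact Nat.mod_add_div' t p
  have hcard := Fintype.card_of_bijective hbij
  rw [Fintype.card_fin, Fintype.card_prod, ZMod.card] at hcard
  rw [hcard] at hpar
  exact (Nat.not_even_iff_odd.2 (hL.mul hL)) hpar

end Walk

/-! ### Degrees, sizes, good chains -/

def ind (a : ZMod 2) : ℕ := if a = 0 then 0 else 1

def deg (J : Ch L) (v : V L) : ℕ :=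
  ind (J (v, false)) + ind (J ((v.1 - 1, v.2), false)) + ind (J (v, true)) +
    ind (J ((v.1, v.2 - 1), true))

lemma ind_cast (a : ZMod 2) : ((ind a : ℕ) : ZMod 2) = a := by
  revert a; decide

lemma deg_cast (J : Ch L) (v : V L) : ((deg J v : ℕ) : ZMod 2) = bd J v := by
  simp [deg, bd, ind_cast]

def size [NeZero L] (J : Ch L) : ℕ := ∑ x, ind (J x)

lemma size_add [NeZero L] (J F : Ch L) : (size (J + F) : ℤ) = size J + wt J F := by
  unfold size wt
  push_cast
  rw [← Finset.sum_add_distrib]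
  apply Finset.sum_congr rfl
  intro x _
  rw [Pi.add_apply]
  generalize J x = a
  generalize F x = b
  revert a b
  decide

def N3 [NeZero L] (J : Ch L) : ℕ := (univ.filter (fun v => deg J v = 3)).card

/-- A chain with boundary `D` that has minimum size and, among those, the minimum number of
vertices of degree 3. -/
def Good [NeZero L] (D : V L → ZMod 2) (J : Ch L) : Prop :=
  bd J = D ∧ (∀ J', bd J' = D → size J ≤ size J') ∧
    (∀ J', bd J' = D → size J' = size J → N3 J ≤ N3 J')

lemma Good.cons [NeZero L] {D : V L → ZMod 2} {J : Ch L} (h : Good D J) (F : Ch L)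
    (hF : bd F = 0) : 0 ≤ wt J F := by
  have h1 := h.2.1 (J + F) (by rw [bd_add, hF, add_zero, h.1])
  have h2 := size_add J F
  omega

lemma exists_good [NeZero L] {D : V L → ZMod 2} {J : Ch L} (h : bd J = D) : ∃ J, Good D J := by
  classical
  obtain ⟨J0, h0, hmin⟩ := Finset.exists_min_image (univ.filter (fun J : Ch L => bd J = D)) size
    ⟨J, by simp [h]⟩
  obtain ⟨J1, h1, hmin1⟩ := Finset.exists_min_image
    (univ.filter (fun J : Ch L => bd J = D ∧ size J = size J0)) N3 ⟨J0, by simpa using h0⟩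
  simp only [mem_filter, mem_univ, true_and] at h0 hmin h1 hmin1
  refine ⟨J1, h1.1, ?_, ?_⟩
  · intro J' hJ'
    rw [h1.2]
    exact hmin J' hJ'
  · intro J' hJ' hs
    exact hmin1 J' ⟨hJ', hs.trans h1.2⟩

namespace St

/-- the edge at `v` opposite to the stem -/
def oe (S : St L) : E L :=
  if S.b then ((S.c.1 + (z L S.x - z L (!S.x)), S.c.2 + z L S.y), false)
  else ((S.c.1 + z L S.x, S.c.2 + (z L S.y - z L (!S.y))), true)

/-- the edge at `v` opposite to `f` -/
def fe (S : St L) : E L :=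
  if S.b then ((S.c.1 + z L S.x, S.c.2 + (z L S.y - z L (!S.y))), true)
  else ((S.c.1 + (z L S.x - z L (!S.x)), S.c.2 + z L S.y), false)

lemma deg_v (S : St L) (J : Ch L) :
    deg J S.v = ind (J S.e) + ind (J S.f) + ind (J S.oe) + ind (J S.fe) := by
  rcases S with ⟨⟨c1, c2⟩, x, y, b⟩
  cases x <;> cases y <;> cases b <;>
    simp [deg, v, e, f, oe, fe, eh, ev, sub_eq_add_neg] <;> ring

lemma next_fe (S : St L) (m : Bool) : (S.next m).fe = S.g m := by
  rcases S with ⟨⟨c1, c2⟩, x, y, b⟩
  cases x <;> cases y <;> cases m <;> simp [next, fe, g, eh, ev]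

lemma next_oe (S : St L) (m : Bool) : (S.next m).oe = (S.next (!m)).f := by
  rcases S with ⟨⟨c1, c2⟩, x, y, b⟩
  cases x <;> cases y <;> cases m <;> simp [next, oe, f, eh, ev]

lemma oe_not (h1 : (1 : ZMod L) ≠ 0) (S : St L) : ¬ inP S.c S.oe := by
  rcases S with ⟨⟨c1, c2⟩, x, y, b⟩
  rintro ⟨o, h⟩
  have h1' : (-1 : ZMod L) ≠ 0 := neg_ne_zero.2 h1
  cases x <;> cases y <;> cases b <;> simp [oe, eh, ev, h1, h1'] at h

lemma fe_not (h1 : (1 : ZMod L) ≠ 0) (S : St L) : ¬ inP S.c S.fe := by
  rcases S with ⟨⟨c1, c2⟩, x, y, b⟩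
  rintro ⟨o, h⟩
  have h1' : (-1 : ZMod L) ≠ 0 := neg_ne_zero.2 h1
  cases x <;> cases y <;> cases b <;> simp [fe, eh, ev, h1, h1'] at h

lemma nf_not (h1 : (1 : ZMod L) ≠ 0) (S : St L) (m : Bool) : ¬ inP S.c (S.next m).f := by
  rcases S with ⟨⟨c1, c2⟩, x, y, b⟩
  rintro ⟨o, h⟩
  have h1' : (-1 : ZMod L) ≠ 0 := neg_ne_zero.2 h1
  cases x <;> cases y <;> cases m <;> simp [next, f, eh, ev, h1, h1'] at h

lemma v_ne (h1 : (1 : ZMod L) ≠ 0) (S : St L) (m : Bool) : (S.next m).v ≠ S.v := by
  rw [next_v]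
  rcases S with ⟨⟨c1, c2⟩, x, y, b⟩
  cases x <;> cases y <;> simp [v, h1]

end St

lemma pl_not {c : V L} {x : E L} (h : ¬ inP c x) : pl c x = 0 := by
  have h1 : x ≠ eh c false := fun h' => h ⟨_, Or.inl h'⟩
  have h2 : x ≠ eh c true := fun h' => h ⟨_, Or.inl h'⟩
  have h3 : x ≠ ev c false := fun h' => h ⟨_, Or.inr h'⟩
  have h4 : x ≠ ev c true := fun h' => h ⟨_, Or.inr h'⟩
  simp [pl, dl_ne h1, dl_ne h2, dl_ne h3, dl_ne h4]

lemma pl_mem (h1 : (1 : ZMod L) ≠ 0) (S : St L) (m : Bool) :
    pl S.c S.e = 1 ∧ pl S.c S.f = 1 ∧ pl S.c (S.g m) = 1 ∧ pl S.c (S.e' m) = 1 := by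
  rw [S.pl_eq m]
  have a1 := e_ne_f S
  have a2 := e_ne_g h1 S m
  have a3 := e_ne_e' h1 S m
  have a4 := f_ne_g h1 S m
  have a5 := f_ne_e' h1 S m
  have a6 := g_ne_e' S m
  refine ⟨?_, ?_, ?_, ?_⟩
  · simp [dl_self, dl_ne a1, dl_ne a2, dl_ne a3]
  · simp [dl_self, dl_ne a1.symm, dl_ne a4, dl_ne a5]
  · simp [dl_self, dl_ne a2.symm, dl_ne a4.symm, dl_ne a6]
  · simp [dl_self, dl_ne a3.symm, dl_ne a5.symm, dl_ne a6.symm]

lemma wt_add_not [NeZero L] {J F : Ch L} {x : E L} (h : F x = 0) :
    wt J (F + dl x) = wt J F + om (J x) 1 := by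
  rw [← sub_eq_iff_eq_add']
  unfold wt
  rw [← Finset.sum_sub_distrib, Fintype.sum_eq_single x]
  · simp [dl_self, h, om]
  · intro y hy
    simp [dl_ne hy]

lemma wt_pl [NeZero L] (h1 : (1 : ZMod L) ≠ 0) (S : St L) (m : Bool) (J : Ch L) :
    wt J (pl S.c) = om (J S.e) 1 + om (J S.f) 1 + om (J (S.g m)) 1 + om (J (S.e' m)) 1 := by
  rw [S.pl_eq m]
  have a1 := e_ne_f S
  have a2 := e_ne_g h1 S m
  have a3 := e_ne_e' h1 S m
  have a4 := f_ne_g h1 S m
  have a5 := f_ne_e' h1 S m
  have a6 := g_ne_e' S m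
  rw [wt_add_not, wt_add_not, wt_add_not]
  · have : wt J (dl S.e) = om (J S.e) 1 := by
      unfold wt
      rw [Fintype.sum_eq_single S.e]
      · rw [dl_self]
      · intro y hy
        simp [dl_ne hy, om]
    rw [this]
  · exact dl_ne a1.symm
  · simp [dl_ne a2.symm, dl_ne a4.symm]
  · simp [dl_ne a3.symm, dl_ne a5.symm, dl_ne a6.symm]

/-! ### The step -/

structure Valid (J : Ch L) (S : St L) : Prop where
  he : J S.e = 1
  hf : J S.f = 1
  hoe : J S.oe = 0
  hfe : J S.fe = 1

lemma Valid.deg {J : Ch L} {S : St L} (h : Valid J S) : deg J S.v = 3 := by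
  rw [S.deg_v, h.he, h.hf, h.hoe, h.hfe]
  decide

lemma om_cases (a : ZMod 2) : om a 1 = 1 ∧ a = 0 ∨ om a 1 = -1 ∧ a = 1 := by
  revert a; decide

lemma flip_info [NeZero L] (h1 : (1 : ZMod L) ≠ 0) {D : V L → ZMod 2} {J : Ch L} (hG : Good D J)
    {S : St L} (hV : Valid J S) (m : Bool) :
    wt J (pl S.c) = 0 ∧ J (S.g m) = 0 ∧ J (S.e' m) = 0 := by
  have h2 := hG.cons (pl S.c) (bd_pl _)
  rw [wt_pl h1 S m, hV.he, hV.hf] at h2
  rw [wt_pl h1 S m, hV.he, hV.hf]
  have e1 : om 1 1 = -1 := by decide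
  rw [e1] at h2 ⊢
  rcases om_cases (J (S.g m)) with ⟨h3, h4⟩ | ⟨h3, h4⟩ <;>
    rcases om_cases (J (S.e' m)) with ⟨h5, h6⟩ | ⟨h5, h6⟩ <;> rw [h3, h5] at h2
  · rw [h3, h5]
    exact ⟨by norm_num, h4, h6⟩
  · norm_num at h2
  · norm_num at h2
  · norm_num at h2

/-- the number of edges at `w` equal to `x` -/
def cnt (w : V L) (x : E L) : ℤ :=
  (if (w, false) = x then 1 else 0) + (if ((w.1 - 1, w.2), false) = x then 1 else 0) +
    (if (w, true) = x then 1 else 0) + (if ((w.1, w.2 - 1), true) = x then 1 else 0)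

def iz (w c : V L) : ℤ := if w = c then 1 else 0

lemma iz_self (w : V L) : iz w w = 1 := if_pos rfl
lemma iz_ne {w c : V L} (h : w ≠ c) : iz w c = 0 := if_neg h

lemma cnt_h (w c : V L) : cnt w (c, false) = iz w c + iz w (c.1 + 1, c.2) := by
  obtain ⟨w1, w2⟩ := w
  obtain ⟨c1, c2⟩ := c
  simp only [cnt, iz, Prod.mk.injEq, and_true, Bool.true_eq_false, and_false, if_false, add_zero,
    sub_eq_iff_eq_add]

lemma cnt_v (w c : V L) : cnt w (c, true) = iz w c + iz w (c.1, c.2 + 1) := by
  obtain ⟨w1, w2⟩ := w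
  obtain ⟨c1, c2⟩ := c
  simp only [cnt, iz, Prod.mk.injEq, and_true, Bool.false_eq_true, and_false, if_false, zero_add,
    add_zero, sub_eq_iff_eq_add]

lemma cnt_total (S : St L) (m : Bool) (w : V L) :
    - cnt w S.e - cnt w S.f + cnt w (S.g m) + cnt w (S.e' m) =
      - 2 * iz w S.v + 2 * iz w (S.next m).v := by
  rw [St.next_v]
  rcases S with ⟨⟨c1, c2⟩, x, y, b⟩
  cases x <;> cases y <;> cases b <;> cases m <;>
    simp [St.e, St.f, St.g, St.e', St.v, eh, ev, cnt_h, cnt_v] <;> ring

lemma ind_flip (h1 : (1 : ZMod L) ≠ 0) {J : Ch L} {S : St L} (m : Bool) (he : J S.e = 1)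
    (hf : J S.f = 1) (hg : J (S.g m) = 0) (he' : J (S.e' m) = 0) (x : E L) :
    (ind ((J + pl S.c) x) : ℤ) = ind (J x) + (-(if x = S.e then 1 else 0) -
      (if x = S.f then 1 else 0) + (if x = S.g m then 1 else 0) +
        (if x = S.e' m then 1 else 0)) := by
  have a1 := e_ne_f S
  have a2 := e_ne_g h1 S m
  have a3 := e_ne_e' h1 S m
  have a4 := f_ne_g h1 S m
  have a5 := f_ne_e' h1 S m
  have a6 := g_ne_e' S m
  obtain ⟨p1, p2, p3, p4⟩ := pl_mem h1 S m
  by_cases hx : inP S.c x
  · rcases inP_cases m hx with h | h | h | h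
    · subst h
      simp only [Pi.add_apply, he, p1, a1, a2, a3, if_true, if_false]
      decide
    · subst h
      simp only [Pi.add_apply, hf, p2, a1.symm, a4, a5, if_true, if_false]
      decide
    · subst h
      simp only [Pi.add_apply, hg, p3, a2.symm, a4.symm, a6, if_true, if_false]
      decide
    · subst h
      simp only [Pi.add_apply, he', p4, a3.symm, a5.symm, a6.symm, if_true, if_false]
      decide
  · have n1 : x ≠ S.e := fun h => hx (h ▸ inP_e S)
    have n2 : x ≠ S.f := fun h => hx (h ▸ inP_f S)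
    have n3 : x ≠ S.g m := fun h => hx (h ▸ inP_g S m)
    have n4 : x ≠ S.e' m := fun h => hx (h ▸ inP_e' S m)
    simp only [Pi.add_apply, pl_not hx, add_zero, n1, n2, n3, n4, if_false]
    norm_num

lemma deg_flip (h1 : (1 : ZMod L) ≠ 0) {J : Ch L} {S : St L} (m : Bool) (he : J S.e = 1)
    (hf : J S.f = 1) (hg : J (S.g m) = 0) (he' : J (S.e' m) = 0) (w : V L) :
    (deg (J + pl S.c) w : ℤ) = deg J w + (- 2 * iz w S.v + 2 * iz w (S.next m).v) := by
  rw [← cnt_total]
  unfold deg
  push_cast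
  rw [ind_flip h1 m he hf hg he', ind_flip h1 m he hf hg he', ind_flip h1 m he hf hg he',
    ind_flip h1 m he hf hg he']
  unfold cnt
  ring

lemma step_exists [NeZero L] (h1 : (1 : ZMod L) ≠ 0) {D : V L → ZMod 2} {J : Ch L}
    (hG : Good D J) {S : St L} (hV : Valid J S) :
    ∃ m, J (S.next m).f = 1 ∧ J (S.next (!m)).f = 0 ∧ Good D (J + pl S.c) := by
  have hbd : bd (J + pl S.c) = D := by rw [bd_add, bd_pl, add_zero, hG.1]
  have hinfo := flip_info h1 hG hV
  have hsize : size (J + pl S.c) = size J := by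
    have := size_add J (pl S.c)
    rw [(hinfo true).1] at this
    omega
  have hN := hG.2.2 _ hbd hsize
  have hdeg := deg_flip h1 true hV.he hV.hf (hinfo true).2.1 (hinfo true).2.2
  have hvne := S.v_ne h1 true
  have hd3 := hV.deg
  have hdv' : deg J (S.next true).v = ind (J (S.next true).f) + ind (J (S.next false).f) := by
    rw [St.deg_v, St.next_e, (hinfo true).2.2, St.next_fe, (hinfo true).2.1, St.next_oe]
    simp [ind]
  by_cases hone : deg J (S.next true).v = 1
  · have hN' : N3 (J + pl S.c) = N3 J := by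
      have : univ.filter (fun w => deg (J + pl S.c) w = 3) =
          insert (S.next true).v ((univ.filter (fun w => deg J w = 3)).erase S.v) := by
        ext w
        simp only [mem_filter, mem_univ, true_and, mem_insert, mem_erase]
        have hw := hdeg w
        by_cases e1 : w = (S.next true).v
        · subst e1
          rw [iz_ne hvne, iz_self, hone] at hw
          constructor
          · intro _; left; rfl
          · intro _; omega
        · by_cases e2 : w = S.v
          · subst e2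
            rw [iz_self, iz_ne e1, hd3] at hw
            constructor
            · intro h; omega
            · rintro (h | h)
              · exact absurd h e1
              · exact absurd rfl h.1
          · rw [iz_ne e1, iz_ne e2] at hw
            constructor
            · intro h; right; exact ⟨e2, by omega⟩
            · rintro (h | h)
              · exact absurd h e1
              · omega
      unfold N3
      rw [this, Finset.card_insert_of_notMem, Finset.card_erase_of_mem]
      · have : 0 < (univ.filter (fun w => deg J w = 3)).card :=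
          Finset.card_pos.2 ⟨S.v, by simpa using hd3⟩
        omega
      · simpa using hd3
      · simp only [mem_erase, mem_filter, mem_univ, true_and, hone]
        omega
    have hGood : Good D (J + pl S.c) :=
      ⟨hbd, fun J' h => by rw [hsize]; exact hG.2.1 J' h,
        fun J' h h' => by rw [hN']; exact hG.2.2 J' h (h'.trans hsize)⟩
    rw [hdv'] at hone
    rcases z2 (J (S.next true).f) with h | h <;> rcases z2 (J (S.next false).f) with h' | h'
    · rw [h, h'] at hone; simp [ind] at hone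
    · exact ⟨false, h', h, hGood⟩
    · exact ⟨true, h, h', hGood⟩
    · rw [h, h'] at hone; simp [ind] at hone
  · exfalso
    have hlt : N3 (J + pl S.c) < N3 J := by
      apply Finset.card_lt_card
      rw [Finset.ssubset_iff_of_subset]
      · refine ⟨S.v, by simpa using hd3, ?_⟩
        simp only [mem_filter, mem_univ, true_and]
        have hw := hdeg S.v
        rw [iz_self, iz_ne hvne.symm, hd3] at hw
        omega
      · intro w
        simp only [mem_filter, mem_univ, true_and]
        intro hw3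
        have hw := hdeg w
        by_cases e1 : w = (S.next true).v
        · subst e1
          rw [iz_ne hvne, iz_self] at hw
          omega
        · by_cases e2 : w = S.v
          · subst e2
            exact hd3
          · rw [iz_ne e1, iz_ne e2] at hw
            omega
    omega

/-! ### From a vertex of degree 3 to a walk -/

instance [NeZero L] : Finite (St L) := by
  apply Finite.of_injective (fun S : St L => (S.c, S.x, S.y, S.b))
  intro S S' h
  rcases S with ⟨c, x, y, b⟩
  rcases S' with ⟨c', x', y', b'⟩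
  simp only [Prod.mk.injEq] at h
  obtain ⟨rfl, rfl, rfl, rfl⟩ := h
  rfl

def Conf [NeZero L] (D : V L → ZMod 2) : Type :=
  {p : Ch L × St L // Good D p.1 ∧ Valid p.1 p.2}

instance [NeZero L] (D : V L → ZMod 2) : Finite (Conf D) :=
  inferInstanceAs (Finite {p : Ch L × St L // Good D p.1 ∧ Valid p.1 p.2})

lemma step_aux [NeZero L] (h1 : (1 : ZMod L) ≠ 0) {D : V L → ZMod 2} (ω : Conf D) :
    ∃ m, ω.1.1 (ω.1.2.next m).f = 1 ∧ Good D (ω.1.1 + pl ω.1.2.c) ∧
      Valid (ω.1.1 + pl ω.1.2.c) (ω.1.2.next m) := by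
  obtain ⟨⟨J, S⟩, hG, hV⟩ := ω
  simp only at hG hV ⊢
  obtain ⟨m, hm1, hm2, hm3⟩ := step_exists h1 hG hV
  have hinfo := flip_info h1 hG hV m
  refine ⟨m, hm1, hm3, ?_, ?_, ?_, ?_⟩
  · rw [St.next_e, Pi.add_apply, hinfo.2.2, (pl_mem h1 S m).2.2.2, zero_add]
  · rw [Pi.add_apply, hm1, pl_not (S.nf_not h1 m), add_zero]
  · rw [Pi.add_apply, St.next_oe, hm2, pl_not (S.nf_not h1 _), add_zero]
  · rw [Pi.add_apply, St.next_fe, hinfo.2.1, (pl_mem h1 S m).2.2.1, zero_add]

noncomputable def mv [NeZero L] (h1 : (1 : ZMod L) ≠ 0) {D : V L → ZMod 2} (ω : Conf D) : Bool :=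
  (step_aux h1 ω).choose

noncomputable def step [NeZero L] (h1 : (1 : ZMod L) ≠ 0) {D : V L → ZMod 2} (ω : Conf D) :
    Conf D :=
  ⟨(ω.1.1 + pl ω.1.2.c, ω.1.2.next (mv h1 ω)), (step_aux h1 ω).choose_spec.2⟩

lemma St.next_inj {S S' : St L} {m m' : Bool} (h : S.next m = S'.next m') :
    S.c = S'.c ∧ S.x = S'.x ∧ S.y = S'.y ∧ m = m' := by
  rcases S with ⟨⟨c1, c2⟩, x, y, b⟩
  rcases S' with ⟨⟨c1', c2'⟩, x', y', b'⟩
  cases m <;> cases m' <;> cases x <;> cases x' <;> cases y <;> cases y' <;>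
    simp_all [next]

lemma Valid.b_eq {J : Ch L} {S S' : St L} (h : Valid J S) (h' : Valid J S') (hc : S.c = S'.c)
    (hx : S.x = S'.x) (hy : S.y = S'.y) : S = S' := by
  rcases S with ⟨⟨c1, c2⟩, x, y, b⟩
  rcases S' with ⟨⟨c1', c2'⟩, x', y', b'⟩
  simp only [Prod.mk.injEq] at hc hx hy
  obtain ⟨rfl, rfl⟩ := hc
  subst hx
  subst hy
  have e1 := h.hoe
  have e2 := h.hfe
  have e3 := h'.hoe
  have e4 := h'.hfe
  cases b <;> cases b' <;> simp only [St.oe, St.fe, if_true, if_false, Bool.false_eq_true] at *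
  · rw [e1] at e4; exact absurd e4 (by decide)
  · rw [e1] at e4; exact absurd e4 (by decide)

lemma step_injective [NeZero L] (h1 : (1 : ZMod L) ≠ 0) {D : V L → ZMod 2} :
    Function.Injective (step h1 (D := D)) := by
  intro ω ω' h
  have e : ((step h1 ω).1 : Ch L × St L) = (step h1 ω').1 := congrArg Subtype.val h
  have e1 : ω.1.1 + pl ω.1.2.c = ω'.1.1 + pl ω'.1.2.c := congrArg Prod.fst e
  have e2 : ω.1.2.next (mv h1 ω) = ω'.1.2.next (mv h1 ω') := congrArg Prod.snd e
  obtain ⟨hc, hx, hy, _⟩ := St.next_inj e2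
  rw [hc] at e1
  have e3 : ω.1.1 = ω'.1.1 := add_right_cancel e1
  have hV := ω.2.2
  have hV' := ω'.2.2
  rw [e3] at hV
  have e4 : ω.1.2 = ω'.1.2 := hV.b_eq hV' hc hx hy
  exact Subtype.ext (Prod.ext e3 e4)

lemma exists_period {A : Type} [Finite A] {F : A → A} (hF : Function.Injective F) (a : A) :
    ∃ N, 0 < N ∧ F^[N] a = a := by
  obtain ⟨i, j, hij, h⟩ := Finite.exists_ne_map_eq_of_infinite (fun n : ℕ => F^[n] a)
  wlog hlt : i < j generalizing i j
  · exact this j i hij.symm h.symm (by omega)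
  refine ⟨j - i, by omega, ?_⟩
  apply hF.iterate i
  have : F^[i] (F^[j - i] a) = F^[j] a := by
    rw [← Function.iterate_add_apply]
    congr 2
    omega
  rw [this]
  exact h.symm

lemma exists_walk [NeZero L] (h1 : (1 : ZMod L) ≠ 0) (h2 : (1 + 1 : ZMod L) ≠ 0)
    {D : V L → ZMod 2} (ω : Conf D) : Nonempty (Walk L) := by
  obtain ⟨N, hN, hper⟩ := exists_period (step_injective h1 (D := D)) ω
  have hsucc : ∀ t, (step h1)^[t + 1] ω = step h1 ((step h1)^[t] ω) := fun t =>
    Function.iterate_succ_apply' _ _ _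
  have hb : ∀ t, ((step h1)^[t + 1] ω).1.2.b = mv h1 ((step h1)^[t] ω) := by
    intro t
    rw [hsucc]
    exact St.next_b _ _
  exact ⟨{
    S := fun t => ((step h1)^[t] ω).1.2
    J := fun t => ((step h1)^[t] ω).1.1
    next := by
      intro t
      rw [hb, hsucc]
      rfl
    J_next := by
      intro t
      rw [hsucc]
      rfl
    Je := fun t => ((step h1)^[t] ω).2.2.he
    Jf := fun t => ((step h1)^[t] ω).2.2.hf
    Jg := fun t => (flip_info h1 ((step h1)^[t] ω).2.1 ((step h1)^[t] ω).2.2 _).2.1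
    Je' := fun t => (flip_info h1 ((step h1)^[t] ω).2.1 ((step h1)^[t] ω).2.2 _).2.2
    cons := fun t F hF => ((step h1)^[t] ω).2.1.cons F hF
    N := N
    hN := hN
    S_per := by
      intro t
      rw [Function.iterate_add_apply, hper]
    h1 := h1
    h2 := h2 }⟩

lemma exists_valid {J : Ch L} {v : V L} (h : deg J v = 3) : ∃ S, Valid J S := by
  unfold deg at h
  obtain ⟨v1, v2⟩ := v
  simp only at h
  rcases z2 (J ((v1, v2), false)) with a | a <;> rcases z2 (J ((v1 - 1, v2), false)) with b | b <;>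
    rcases z2 (J ((v1, v2), true)) with c | c <;> rcases z2 (J ((v1, v2 - 1), true)) with d | d <;>
    simp [a, b, c, d, ind] at h
  · -- right edge missing
    refine ⟨⟨(v1 - 1, v2), true, false, true⟩, ?_, ?_, ?_, ?_⟩
    · simpa [St.e, eh] using b
    · simpa [St.f, ev] using c
    · simpa [St.oe] using a
    · simpa [St.fe, ← sub_eq_add_neg] using d
  · -- left edge missing
    refine ⟨⟨(v1, v2), false, false, true⟩, ?_, ?_, ?_, ?_⟩
    · simpa [St.e, eh] using a
    · simpa [St.f, ev] using c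
    · simpa [St.oe, ← sub_eq_add_neg] using b
    · simpa [St.fe, ← sub_eq_add_neg] using d
  · -- upper edge missing
    refine ⟨⟨(v1, v2 - 1), false, true, false⟩, ?_, ?_, ?_, ?_⟩
    · simpa [St.e, ev] using d
    · simpa [St.f, eh] using a
    · simpa [St.oe] using c
    · simpa [St.fe, ← sub_eq_add_neg] using b
  · -- lower edge missing
    refine ⟨⟨(v1, v2), false, false, false⟩, ?_, ?_, ?_, ?_⟩
    · simpa [St.e, ev] using c
    · simpa [St.f, eh] using a
    · simpa [St.oe, ← sub_eq_add_neg] using d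
    · simpa [St.fe, ← sub_eq_add_neg] using b

theorem good_deg [NeZero L] (h1 : (1 : ZMod L) ≠ 0) (h2 : (1 + 1 : ZMod L) ≠ 0) (hL : Odd L)
    {D : V L → ZMod 2} {J : Ch L} (hG : Good D J) (v : V L) : deg J v ≠ 3 := by
  intro h
  obtain ⟨S, hS⟩ := exists_valid h
  obtain ⟨W⟩ := exists_walk h1 h2 (D := D) ⟨(J, S), hG, hS⟩
  exact W.contradiction hL

/-! ### Existence of joins -/

lemma exists_join [NeZero L] (D : Finset (V L)) (hD : Even D.card) :
    ∃ J : Ch L, bd J = fun v => if v ∈ D then 1 else 0 := by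
  classical
  have h0 : ∀ c : V L, ∃ F : Ch L, bd F = dl c + dl ((0, 0) : V L) := by
    apply cover (fun c => ∃ F : Ch L, bd F = dl c + dl ((0, 0) : V L)) (0, 0)
    · exact ⟨0, by rw [bd_zero, add_self2]⟩
    · rintro c ⟨F, hF⟩
      refine ⟨F + dl (c, false), ?_⟩
      rw [bd_add, hF, bd_h]
      have : dl c + dl ((0, 0) : V L) + (dl c + dl (c.1 + 1, c.2)) =
        dl (c.1 + 1, c.2) + dl ((0, 0) : V L) + (dl c + dl c) := by abel
      rw [this, add_self2, add_zero]
    · rintro c ⟨F, hF⟩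
      refine ⟨F + dl (c, true), ?_⟩
      rw [bd_add, hF, bd_v]
      have : dl c + dl ((0, 0) : V L) + (dl c + dl (c.1, c.2 + 1)) =
        dl (c.1, c.2 + 1) + dl ((0, 0) : V L) + (dl c + dl c) := by abel
      rw [this, add_self2, add_zero]
  choose F hF using h0
  refine ⟨∑ c ∈ D, F c, ?_⟩
  rw [bd_sum, Finset.sum_congr rfl (fun c _ => hF c), Finset.sum_add_distrib, Finset.sum_const]
  have h2 : D.card • dl ((0, 0) : V L) = 0 := by
    obtain ⟨k, hk⟩ := hD
    rw [hk, add_smul, add_self2]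
  rw [h2, add_zero]
  funext v
  rw [Finset.sum_apply]
  by_cases hv : v ∈ D
  · rw [if_pos hv, Finset.sum_eq_single v]
    · exact dl_self v
    · intro c _ hc
      exact dl_ne hc.symm
    · intro h; exact absurd hv h
  · rw [if_neg hv]
    apply Finset.sum_eq_zero
    intro c hc
    apply dl_ne
    rintro rfl
    exact hv hc

/-! ### Translation -/

def io (x : E L) : Sym2 (V L) :=
  if x.2 then s(x.1, (x.1.1, x.1.2 + 1)) else s(x.1, (x.1.1 + 1, x.1.2))

lemma mem_io {v : V L} {x : E L} : v ∈ io x ↔ x = (v, false) ∨ x = ((v.1 - 1, v.2), false) ∨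
    x = (v, true) ∨ x = ((v.1, v.2 - 1), true) := by
  obtain ⟨v1, v2⟩ := v
  obtain ⟨⟨x1, x2⟩, t⟩ := x
  cases t
  · simp only [io, Bool.false_eq_true, if_false, Sym2.mem_iff, Prod.mk.injEq, and_true, and_false,
      or_false, eq_sub_iff_add_eq]
    tauto
  · simp only [io, if_true, Sym2.mem_iff, Prod.mk.injEq, and_true, Bool.true_eq_false, and_false,
      false_or, eq_sub_iff_add_eq]
    tauto

lemma io_inj (h1 : (1 : ZMod L) ≠ 0) (h2 : (1 + 1 : ZMod L) ≠ 0) :
    Function.Injective (io (L := L)) := by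
  rintro ⟨⟨x1, x2⟩, t⟩ ⟨⟨y1, y2⟩, t'⟩ h
  have k1 : ∀ a b : ZMod L, a = b + 1 → a + 1 = b → False := by
    intro a b h h'
    rw [← h', add_assoc] at h
    apply h2
    have : a + 0 = a + (1 + 1) := by rw [add_zero]; exact h
    exact (add_left_cancel this).symm
  cases t <;> cases t' <;> simp only [io, Bool.false_eq_true, if_false, if_true, Sym2.eq_iff,
    Prod.mk.injEq] at h
  · rcases h with ⟨⟨rfl, rfl⟩, _⟩ | ⟨⟨h3, _⟩, h4, _⟩
    · rfl
    · exact (k1 _ _ h3 h4).elim
  · exfalso
    rcases h with ⟨⟨rfl, rfl⟩, h3, _⟩ | ⟨⟨h3, _⟩, h4, _⟩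
    · exact h1 (by simpa using h3)
    · rw [h3] at h4
      exact h1 (by simpa using h4)
  · exfalso
    rcases h with ⟨⟨rfl, rfl⟩, h3, _⟩ | ⟨⟨h3, _⟩, h4, _⟩
    · exact h1 (by simpa using h3)
    · rw [h3] at h4
      exact h1 (by simpa using h4)
  · rcases h with ⟨⟨rfl, rfl⟩, _⟩ | ⟨⟨_, h3⟩, _, h4⟩
    · rfl
    · exact (k1 _ _ h3 h4).elim

lemma io_edge (h1 : (1 : ZMod L) ≠ 0) (x : E L) : io x ∈ (torusGrid L).edgeSet := by
  obtain ⟨⟨x1, x2⟩, t⟩ := x
  cases t
  · simp only [io, Bool.false_eq_true, if_false, SimpleGraph.mem_edgeSet, torusGrid]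
    refine ⟨?_, Or.inr ⟨trivial, Or.inr trivial⟩⟩
    intro h
    simp only [Prod.mk.injEq] at h
    exact h1 (by simpa using h.1)
  · simp only [io, if_true, SimpleGraph.mem_edgeSet, torusGrid]
    refine ⟨?_, Or.inl ⟨trivial, Or.inr trivial⟩⟩
    intro h
    simp only [Prod.mk.injEq] at h
    exact h1 (by simpa using h.2)

lemma edge_io {e : Sym2 (V L)} (he : e ∈ (torusGrid L).edgeSet) : ∃ x, io x = e := by
  induction e using Sym2.ind with
  | _ u v =>
  obtain ⟨u1, u2⟩ := u
  obtain ⟨v1, v2⟩ := v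
  rw [SimpleGraph.mem_edgeSet] at he
  obtain ⟨_, ⟨h, h'⟩ | ⟨h, h'⟩⟩ := he
  · simp only at h h'
    subst h
    rcases h' with h' | h'
    · subst h'
      refine ⟨((u1, v2), true), ?_⟩
      simp only [io, if_true]
      exact Sym2.eq_swap
    · subst h'
      exact ⟨((u1, u2), true), rfl⟩
  · simp only at h h'
    subst h
    rcases h' with h' | h'
    · subst h'
      refine ⟨((v1, u2), false), ?_⟩
      simp only [io, Bool.false_eq_true, if_false]
      exact Sym2.eq_swap
    · subst h'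
      exact ⟨((u1, u2), false), rfl⟩

noncomputable def toF [NeZero L] (J : Ch L) : Finset (Sym2 (V L)) :=
  (univ.filter (fun x => J x ≠ 0)).image io

lemma card_toF [NeZero L] (h1 : (1 : ZMod L) ≠ 0) (h2 : (1 + 1 : ZMod L) ≠ 0) (J : Ch L) :
    (toF J).card = size J := by
  unfold toF size
  rw [Finset.card_image_of_injective _ (io_inj h1 h2), Finset.card_filter]
  apply Finset.sum_congr rfl
  intro x _
  unfold ind
  by_cases h : J x = 0 <;> simp [h]

lemma jdeg_toF [NeZero L] (h1 : (1 : ZMod L) ≠ 0) (h2 : (1 + 1 : ZMod L) ≠ 0) (J : Ch L)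
    (v : V L) : jdeg (toF J) v = deg J v := by
  classical
  have e1 : (toF J).filter (fun e => v ∈ e) =
      (univ.filter (fun x => J x ≠ 0 ∧ v ∈ io x)).image io := by
    ext e
    simp only [toF, mem_filter, mem_image, mem_univ, true_and]
    constructor
    · rintro ⟨⟨x, hx, rfl⟩, hv⟩
      exact ⟨x, ⟨hx, hv⟩, rfl⟩
    · rintro ⟨x, ⟨hx, hv⟩, rfl⟩
      exact ⟨⟨x, hx, rfl⟩, hv⟩
  have e2 : jdeg (toF J) v = ((toF J).filter (fun e => v ∈ e)).card := by
    unfold jdeg
    congr
  rw [e2, e1, Finset.card_image_of_injective _ (io_inj h1 h2)]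
  have e3 : univ.filter (fun x => J x ≠ 0 ∧ v ∈ io x) =
      ({(v, false), ((v.1 - 1, v.2), false), (v, true), ((v.1, v.2 - 1), true)} :
        Finset (E L)).filter (fun x => J x ≠ 0) := by
    ext x
    simp only [mem_filter, mem_univ, true_and, mem_io, mem_insert, mem_singleton]
    tauto
  rw [e3, Finset.card_filter]
  have hn : ∀ a : ZMod L, a ≠ a - 1 := by
    intro a h
    apply h1
    have : a + 0 = a + -1 := by rw [add_zero, ← sub_eq_add_neg]; exact h
    have := add_left_cancel this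
    exact neg_eq_zero.1 this.symm
  obtain ⟨v1, v2⟩ := v
  rw [Finset.sum_insert, Finset.sum_insert, Finset.sum_insert, Finset.sum_singleton]
  · unfold deg ind
    simp only [ne_eq, ite_not]
    ring
  · simp only [mem_singleton, Prod.mk.injEq, not_and]
    intro h
    exact absurd h.2 (hn _)
  · simp
  · simp only [mem_insert, mem_singleton, Prod.mk.injEq, and_true, Bool.false_eq_true, and_false,
      or_false]
    exact fun h => hn _ h

lemma bd_iff (D : Finset (V L)) (J : Ch L) :
    (bd J = fun v => if v ∈ D then 1 else 0) ↔ ∀ v, Odd (deg J v) ↔ v ∈ D := by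
  constructor
  · intro h v
    rw [← ZMod.natCast_eq_one_iff_odd, deg_cast, h]
    by_cases hv : v ∈ D <;> simp [hv]
  · intro h
    funext v
    rw [← deg_cast]
    by_cases hv : v ∈ D
    · rw [if_pos hv, ZMod.natCast_eq_one_iff_odd]
      exact (h v).2 hv
    · rw [if_neg hv, ZMod.natCast_eq_zero_iff_even, ← Nat.not_odd_iff_even]
      exact fun h' => hv ((h v).1 h')

/-- **Main theorem.** For every odd `L ≥ 3` and every set `D` of an even number of vertices of the
`L × L` toroidal grid there is a minimum `D`-join in which every vertex of `D` has degree `1`. -/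
theorem result : ∀ L : ℕ, 3 ≤ L → Odd L → ∀ D : Finset (ZMod L × ZMod L), Even D.card →
    ∃ J, IsMinJoin L D J ∧ ∀ v ∈ D, jdeg J v = 1 := by
  classical
  intro L hL hodd D hD
  have : NeZero L := ⟨by omega⟩
  have : Fact (1 < L) := ⟨by omega⟩
  have h1 : (1 : ZMod L) ≠ 0 := one_ne_zero
  have h2 : (1 + 1 : ZMod L) ≠ 0 := by
    intro h
    have h3 : ((2 : ℕ) : ZMod L) = 0 := by
      push_cast
      rw [← h]
      norm_num
    rw [ZMod.natCast_eq_zero_iff] at h3
    have := Nat.le_of_dvd (by norm_num) h3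
    omega
  obtain ⟨J0, hJ0⟩ := exists_join D hD
  obtain ⟨J, hG⟩ := exists_good hJ0
  have hpar := (bd_iff D J).1 hG.1
  refine ⟨toF J, ⟨⟨?_, ?_⟩, ?_⟩, ?_⟩
  · intro e he
    simp only [toF, mem_image] at he
    obtain ⟨x, _, rfl⟩ := he
    exact io_edge h1 x
  · intro v
    rw [jdeg_toF h1 h2]
    exact hpar v
  · intro J' hJ'
    obtain ⟨G, hGdef⟩ : ∃ G : Ch L, G = fun x => if io x ∈ J' then 1 else 0 := ⟨_, rfl⟩
    have hGJ : toF G = J' := by
      ext e
      simp only [toF, mem_image, mem_filter, mem_univ, true_and]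
      constructor
      · rintro ⟨x, hx, rfl⟩
        by_contra hn
        apply hx
        rw [hGdef]
        simp [hn]
      · intro he
        obtain ⟨x, rfl⟩ := edge_io (hJ'.edges e he)
        refine ⟨x, ?_, rfl⟩
        rw [hGdef]
        simp [he]
    have hbd : bd G = fun v => if v ∈ D then 1 else 0 := by
      rw [bd_iff]
      intro v
      rw [← jdeg_toF h1 h2, hGJ]
      exact hJ'.parity v
    rw [card_toF h1 h2, ← hGJ, card_toF h1 h2]
    exact hG.2.1 G hbd
  · intro v hv
    rw [jdeg_toF h1 h2]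
    have ho := (hpar v).2 hv
    have h3 := good_deg h1 h2 hodd hG v
    have h4 : deg J v ≤ 4 := by
      have hi : ∀ a : ZMod 2, ind a ≤ 1 := by decide
      unfold deg
      have a1 := hi (J (v, false))
      have a2 := hi (J ((v.1 - 1, v.2), false))
      have a3 := hi (J (v, true))
      have a4 := hi (J ((v.1, v.2 - 1), true))
      omega
    obtain ⟨k, hk⟩ := ho
    omega

end Pool.Agent.Results.MP_6e06a5_co.DegreeOne
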